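import Pool.Agent.Helper39.MH.SqrtArea
set_option autoImplicit false
open Complex Metric Set Filter Topology

/-! The one quarter theorem of Koebe for functions without zeros. -/

namespace Pool.Agent.Helper84.EK

open Pool.Agent.Helper22.Marshall (coeff coeff_zero coeff_one coeff_mul coeff_congr)

/-- the second coefficient of a univalent function is at most 2 -/
theorem second_le_two {f : ℂ → ℂ} (hf : DifferentiableOn ℂ f (ball 0 1))
    (hinj : InjOn f (ball 0 1)) (h0 : f 0 = 0) (h1 : deriv f 0 = 1) : ‖coeff f 2‖ ≤ 2 := by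
  have h := Pool.Agent.Helper39.MH.sqrt_area hf hinj h0 h1 (a2 := coeff f 2) (a3 := coeff f 3)
    (a4 := coeff f 4) rfl rfl rfl (B0 := -coeff f 2) (B1 := coeff f 2 ^ 2 - coeff f 3)
    (B2 := -coeff f 4 + 2 * coeff f 2 * coeff f 3 - coeff f 2 ^ 3) rfl rfl rfl
  have h2 : ‖-coeff f 2 / 2‖ ^ 2 ≤ 1 := by
    refine le_trans ?_ h
    rw [add_assoc]
    exact le_add_of_nonneg_right (by positivity)
  rw [norm_div, norm_neg] at h2
  have h3 : ‖(2:ℂ)‖ = 2 := by simp
  rw [h3] at h2
  have h4 := norm_nonneg (coeff f 2)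
  nlinarith

/-- **Koebe**: `‖g' 0‖ ≤ 4 ‖g 0‖` for `g` univalent without zeros in the unit disc -/
theorem koebe {g : ℂ → ℂ} (hg : DifferentiableOn ℂ g (ball 0 1)) (hinj : InjOn g (ball 0 1))
    (hne : ∀ z ∈ ball (0:ℂ) 1, g z ≠ 0) : ‖deriv g 0‖ ≤ 4 * ‖g 0‖ := by
  have h0b : (0:ℂ) ∈ ball (0:ℂ) 1 := mem_ball_self one_pos
  have hb0 : ball (0:ℂ) 1 ∈ 𝓝 (0:ℂ) := ball_mem_nhds 0 one_pos
  have hd : deriv g 0 ≠ 0 := Pool.Agent.Helper24.Br.deriv_ne_of_inj isOpen_ball hg hinj h0b
  have hg0 : g 0 ≠ 0 := hne 0 h0b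
  have hgd : HasDerivAt g (deriv g 0) 0 := (hg.differentiableAt hb0).hasDerivAt
  set d := deriv g 0 with hdd
  set c := g 0 with hc
  set f : ℂ → ℂ := fun z => (g z - c) / d with hf
  set f2 : ℂ → ℂ := fun z => c / d * (1 - c / g z) with hf2
  set k : ℂ → ℂ := fun z => g z / c with hk
  have hfd : DifferentiableOn ℂ f (ball 0 1) := (hg.sub_const c).div_const d
  have hf2d : DifferentiableOn ℂ f2 (ball 0 1) := by
    apply DifferentiableOn.const_mul
    apply DifferentiableOn.const_sub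
    exact (differentiableOn_const c).div hg hne
  have hkd : DifferentiableOn ℂ k (ball 0 1) := hg.div_const c
  have hfi : InjOn f (ball 0 1) := by
    intro z hz w hw h
    apply hinj hz hw
    simp only [hf] at h
    rw [div_left_inj' hd] at h
    linear_combination h
  have hf2i : InjOn f2 (ball 0 1) := by
    intro z hz w hw h
    apply hinj hz hw
    simp only [hf2] at h
    have h1 := mul_left_cancel₀ (div_ne_zero hg0 hd) h
    have h2 : c / g z = c / g w := by linear_combination -h1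
    rw [div_eq_div_iff (hne z hz) (hne w hw)] at h2
    exact (mul_left_cancel₀ hg0 h2).symm
  have hf0 : f 0 = 0 := by simp [hf, hc]
  have hf20 : f2 0 = 0 := by
    simp only [hf2]
    rw [← hc, div_self hg0, sub_self, mul_zero]
  have hf1 : deriv f 0 = 1 := by
    have h1 : HasDerivAt f (d / d) 0 := (hgd.sub_const c).div_const d
    rw [h1.deriv, div_self hd]
  have hf21 : deriv f2 0 = 1 := by
    have h1 : HasDerivAt f2 (c / d * -((0 * g 0 - c * d) / g 0 ^ 2)) 0 :=
      (((hasDerivAt_const (0:ℂ) c).div hgd hg0).const_sub 1).const_mul (c / d)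
    rw [h1.deriv, ← hc]
    field_simp
    ring
  have e1 := second_le_two hfd hfi hf0 hf1
  have e2 := second_le_two hf2d hf2i hf20 hf21
  have hprod : f =ᶠ[𝓝 0] fun z => f2 z * k z := by
    filter_upwards [hb0] with z hz
    have h1 := hne z hz
    simp only [hf, hf2, hk]
    field_simp
  have e3 : coeff f 2 = coeff f2 2 + d / c := by
    rw [coeff_congr hprod, coeff_mul (hf2d.analyticAt hb0) (hkd.analyticAt hb0)]
    simp only [Finset.sum_range_succ, Finset.sum_range_zero, zero_add, Nat.sub_zero, Nat.sub_self,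
      show (2 - 1 : ℕ) = 1 from rfl]
    have k0 : coeff k 0 = 1 := by
      rw [coeff_zero]
      simp only [hk]
      exact div_self hg0
    have k1 : coeff k 1 = d / c := by
      rw [coeff_one]
      exact (hgd.div_const c).deriv
    rw [k0, k1, coeff_zero, hf20, coeff_one, hf21]
    ring
  have e4 : ‖d / c‖ ≤ 4 := by
    have h1 : d / c = coeff f 2 - coeff f2 2 := by rw [e3]; ring
    rw [h1]
    exact (norm_sub_le _ _).trans (by linarith)
  rw [norm_div, div_le_iff₀ (norm_pos_iff.mpr hg0)] at e4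
  exact e4

/-- Koebe in a disc of radius `r` -/
theorem koebe_r {g : ℂ → ℂ} {r : ℝ} (hr : 0 < r) (hg : DifferentiableOn ℂ g (ball 0 r))
    (hinj : InjOn g (ball 0 r)) (hne : ∀ z ∈ ball (0:ℂ) r, g z ≠ 0) :
    ‖deriv g 0‖ * r ≤ 4 * ‖g 0‖ := by
  have hm : MapsTo (fun z : ℂ => (r : ℂ) * z) (ball 0 1) (ball 0 r) := by
    intro z hz
    rw [mem_ball_zero_iff] at hz ⊢
    rw [norm_mul, Complex.norm_real, Real.norm_of_nonneg hr.le]
    nlinarith
  have hr0 : (r : ℂ) ≠ 0 := by exact_mod_cast hr.ne'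
  have h1 := koebe (g := fun z => g ((r : ℂ) * z)) (hg.comp (by fun_prop) hm)
    (by
      intro z hz w hw h
      exact mul_left_cancel₀ hr0 (hinj (hm hz) (hm hw) h))
    (fun z hz => hne _ (hm hz))
  have h0r : (0:ℂ) ∈ ball (0:ℂ) r := mem_ball_self hr
  have h2 : HasDerivAt g (deriv g 0) ((r:ℂ) * 0) := by
    rw [mul_zero]
    exact (hg.differentiableAt (isOpen_ball.mem_nhds h0r)).hasDerivAt
  have h3 : HasDerivAt (fun z : ℂ => (r : ℂ) * z) (r : ℂ) 0 := by
    simpa using (hasDerivAt_id (0:ℂ)).const_mul (r : ℂ)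
  have h4 : deriv (fun z => g ((r : ℂ) * z)) 0 = deriv g 0 * r := (h2.comp (0:ℂ) h3).deriv
  rw [h4, norm_mul, Complex.norm_real, Real.norm_of_nonneg hr.le] at h1
  simpa using h1

end Pool.Agent.Helper84.EK
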