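import Pool.Agent.Helper84.EK.Koebe
import Pool.Agent.Helper52.EK.Defs
set_option autoImplicit false
open Complex Metric Set Filter Topology
open scoped Real

/-! Project EK3, module (b): the bound of Koebe on the centre line of the strip. -/

namespace Pool.Agent.Helper84.EK

open Pool.Agent.Helper39.Area Pool.Agent.Helper52.EK

/-- Koebe at the point `z₀` of the segment `(0, a)` -/
theorem koebe_at {β : ℂ → ℂ} (h : Ext β) {a z₀ r : ℝ} (ha1 : a < 1) (hz₀ : 0 < z₀)
    (hza : z₀ < a) (hr : 0 < r) (hr1 : r ≤ z₀) (hr2 : r * (1 - a * z₀) ≤ a - z₀) :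
    ‖dphi β z₀‖ * (1 - z₀ ^ 2) * r ≤ 4 * ‖phi β z₀ - phi β a‖ := by
  have ha : 0 < a := hz₀.trans hza
  have hz1 : z₀ < 1 := hza.trans ha1
  have haz : 0 < 1 - a * z₀ := by nlinarith
  set M : ℂ → ℂ := fun u => (u + z₀) / (1 + z₀ * u) with hM
  have hden : ∀ u ∈ ball (0:ℂ) r, (1 + (z₀ : ℂ) * u) ≠ 0 := by
    intro u hu h0
    rw [mem_ball_zero_iff] at hu
    have h1 : (z₀ : ℂ) * u = -1 := by linear_combination h0
    have h2 : z₀ * ‖u‖ = 1 := by
      have := congrArg (fun w : ℂ => ‖w‖) h1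
      simpa [Complex.norm_real, abs_of_pos hz₀] using this
    nlinarith [norm_nonneg u]
  have hMb : ∀ u ∈ ball (0:ℂ) r, M u ∈ ball (0:ℂ) 1 := by
    intro u hu
    have h1 := hden u hu
    rw [mem_ball_zero_iff] at hu ⊢
    simp only [hM]
    rw [norm_div, div_lt_one (norm_pos_iff.mpr h1)]
    have h2 : ‖u + z₀‖ ^ 2 < ‖1 + (z₀ : ℂ) * u‖ ^ 2 := by
      have h3 : ‖u‖ ^ 2 = u.re ^ 2 + u.im ^ 2 := by
        rw [← Complex.normSq_eq_norm_sq, Complex.normSq_apply]
        ring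
      have h4 : ‖u‖ ^ 2 < 1 := by nlinarith [norm_nonneg u]
      rw [← Complex.normSq_eq_norm_sq, ← Complex.normSq_eq_norm_sq, Complex.normSq_apply,
        Complex.normSq_apply]
      simp only [Complex.add_re, Complex.add_im, Complex.ofReal_re, Complex.ofReal_im,
        Complex.one_re, Complex.one_im, Complex.mul_re, Complex.mul_im, add_zero, zero_add,
        zero_mul, sub_zero]
      have h5 : 0 < (1 - (u.re ^ 2 + u.im ^ 2)) * (1 - z₀ ^ 2) := by
        apply mul_pos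
        · rw [← h3]; linarith
        · nlinarith
      nlinarith
    exact lt_of_pow_lt_pow_left₀ 2 (norm_nonneg _) h2
  have hM0 : ∀ u ∈ ball (0:ℂ) r, M u ≠ 0 := by
    intro u hu h0
    have h1 := hden u hu
    simp only [hM] at h0
    rw [div_eq_zero_iff] at h0
    rcases h0 with h0 | h0
    · have h2 : u = -(z₀ : ℂ) := by linear_combination h0
      rw [mem_ball_zero_iff, h2, norm_neg, Complex.norm_real, Real.norm_of_nonneg hz₀.le] at hu
      linarith
    · exact h1 h0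
  have hMa : ∀ u ∈ ball (0:ℂ) r, M u ≠ a := by
    intro u hu h0
    have h1 := hden u hu
    simp only [hM] at h0
    rw [div_eq_iff h1] at h0
    have h2 : u * ((1 - a * z₀ : ℝ) : ℂ) = ((a - z₀ : ℝ) : ℂ) := by
      push_cast
      linear_combination h0
    have h3 := congrArg (fun w : ℂ => ‖w‖) h2
    simp only [norm_mul, Complex.norm_real] at h3
    rw [Real.norm_of_nonneg haz.le, Real.norm_of_nonneg (by linarith)] at h3
    rw [mem_ball_zero_iff] at hu
    nlinarith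
  have hMi : ∀ u ∈ ball (0:ℂ) r, ∀ v ∈ ball (0:ℂ) r, M u = M v → u = v := by
    intro u hu v hv h0
    simp only [hM] at h0
    rw [div_eq_div_iff (hden u hu) (hden v hv)] at h0
    have h1 : (u - v) * ((1 - z₀ ^ 2 : ℝ) : ℂ) = 0 := by
      push_cast
      linear_combination h0
    have h2 : ((1 - z₀ ^ 2 : ℝ) : ℂ) ≠ 0 := by
      have : (1 - z₀ ^ 2 : ℝ) ≠ 0 := by nlinarith
      exact_mod_cast this
    exact sub_eq_zero.mp ((mul_eq_zero.mp h1).resolve_right h2)
  have hMd : ∀ u ∈ ball (0:ℂ) r, DifferentiableAt ℂ M u := by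
    intro u hu
    exact DifferentiableAt.div (by fun_prop) (by fun_prop) (hden u hu)
  have haB : (a : ℂ) ∈ ball (0:ℂ) 1 := by
    rw [mem_ball_zero_iff, Complex.norm_real, Real.norm_of_nonneg ha.le]
    exact ha1
  have ha0 : (a : ℂ) ≠ 0 := by exact_mod_cast ha.ne'
  have hphi : ∀ z ∈ ball (0:ℂ) 1, z ≠ 0 → HasDerivAt (phi β) (dphi β z) z :=
    fun z hz h0 => hasDerivAt_phi h.diff hz h0
  have h0r : (0:ℂ) ∈ ball (0:ℂ) r := mem_ball_self hr
  have hk := koebe_r (g := fun u => phi β (M u) - phi β a) hr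
    (by
      intro u hu
      have h1 := (hphi (M u) (hMb u hu) (hM0 u hu)).differentiableAt
      exact ((h1.comp u (hMd u hu)).sub_const _).differentiableWithinAt)
    (by
      intro u hu v hv huv
      have h1 : phi β (M u) = phi β (M v) := by
        have h2 : phi β (M u) - phi β a = phi β (M v) - phi β a := huv
        linear_combination h2
      exact hMi u hu v hv (h.inj _ _ (hMb u hu) (hMb v hv) (hM0 u hu) (hM0 v hv) h1))
    (by
      intro u hu h1
      exact hMa u hu (h.inj _ _ (hMb u hu) haB (hM0 u hu) ha0 (sub_eq_zero.mp h1)))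
  have hM00 : M 0 = z₀ := by simp [hM]
  have hMd0 : HasDerivAt M ((1 - z₀ ^ 2 : ℝ) : ℂ) 0 := by
    have h1 : HasDerivAt (fun u : ℂ => u + (z₀ : ℂ)) 1 0 := (hasDerivAt_id _).add_const _
    have h2 : HasDerivAt (fun u : ℂ => 1 + (z₀ : ℂ) * u) (z₀ : ℂ) 0 := by
      simpa using ((hasDerivAt_id (0:ℂ)).const_mul (z₀ : ℂ)).const_add 1
    have h3 := h1.div h2 (hden 0 h0r)
    have e : ((1 - z₀ ^ 2 : ℝ) : ℂ) = (1 * (1 + (z₀ : ℂ) * 0) - (0 + (z₀ : ℂ)) * z₀) /
        (1 + (z₀ : ℂ) * 0) ^ 2 := by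
      push_cast
      ring
    rw [e]
    exact h3
  have hz₀B : (z₀ : ℂ) ∈ ball (0:ℂ) 1 := by
    rw [mem_ball_zero_iff, Complex.norm_real, Real.norm_of_nonneg hz₀.le]
    exact hz1
  have hz₀0 : (z₀ : ℂ) ≠ 0 := by exact_mod_cast hz₀.ne'
  have hG : HasDerivAt (fun u => phi β (M u) - phi β a) (dphi β z₀ * ((1 - z₀ ^ 2 : ℝ) : ℂ)) 0 := by
    have h1 : HasDerivAt (phi β) (dphi β z₀) (M 0) := by
      rw [hM00]
      exact hphi _ hz₀B hz₀0
    exact (h1.comp (0:ℂ) hMd0).sub_const _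
  rw [hG.deriv, norm_mul, Complex.norm_real, Real.norm_of_nonneg (by nlinarith)] at hk
  simpa [hM00] using hk

theorem exp_pt_half (ξ : ℝ) : Complex.exp (pt ξ (π / 2)) = (Real.exp ξ : ℂ) * I := by
  have h1 : pt ξ (π / 2) = (ξ : ℂ) + (π : ℂ) / 2 * I := by
    unfold pt
    push_cast
    ring
  rw [h1, Complex.exp_add, ← Complex.ofReal_exp]
  congr 1
  rw [show (π : ℂ) / 2 * I = ((π / 2 : ℝ) : ℂ) * I by push_cast; ring, Complex.exp_mul_I,
    ← Complex.ofReal_cos, ← Complex.ofReal_sin, Real.cos_pi_div_two, Real.sin_pi_div_two]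
  simp

/-- **the bound of Koebe on the centre line** -/
theorem centre {β : ℂ → ℂ} (h : Ext β) {a : ℝ} (ha : 0 < a) (ha1 : a < 1) {ξ : ℝ}
    (h1 : Real.log (tau a) < ξ) (h2 : ξ < 0) :
    ‖Xf β a (pt ξ (π / 2))‖ ≤ max ((1 + Real.exp ξ) / (1 - Real.exp ξ))
      ((Real.exp ξ + tau a) / (Real.exp ξ - tau a)) := by
  have hτ : 0 < tau a := by
    unfold tau
    have : 0 < 1 - a := by linarith
    positivity
  have hy0 : 0 < Real.exp ξ := Real.exp_pos ξ
  have hy1 : Real.exp ξ < 1 := by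
    rw [← Real.exp_zero]
    exact Real.exp_lt_exp.mpr h2
  have hyτ : tau a < Real.exp ξ := (Real.log_lt_iff_lt_exp hτ).mp h1
  set y := Real.exp ξ with hy
  set t := tau a with ht
  have hat : a = (1 - t) / (1 + t) := by
    rw [ht]
    unfold tau
    field_simp
    ring
  set z₀ : ℝ := (1 - y) / (1 + y) with hz₀
  have hzpos : 0 < z₀ := div_pos (by linarith) (by linarith)
  have hza : z₀ < a := by
    rw [hat, hz₀, div_lt_div_iff₀ (by linarith) (by linarith)]
    nlinarith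
  set m := max ((1 + y) / (1 - y)) ((y + t) / (y - t)) with hm
  have hm1 : (1 + y) / (1 - y) ≤ m := le_max_left _ _
  have hm2 : (y + t) / (y - t) ≤ m := le_max_right _ _
  have hmpos : 0 < m := lt_of_lt_of_le (div_pos (by linarith) (by linarith)) hm1
  have hr : 0 < m⁻¹ := inv_pos.mpr hmpos
  have hr1 : m⁻¹ ≤ z₀ := by
    rw [inv_le_comm₀ hmpos hzpos, hz₀, inv_div]
    exact hm1
  have hr2 : m⁻¹ * (1 - a * z₀) ≤ a - z₀ := by
    have e1 : 1 - a * z₀ = 2 * (y + t) / ((1 + t) * (1 + y)) := by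
      rw [hat, hz₀]
      field_simp
      ring
    have e2 : a - z₀ = 2 * (y - t) / ((1 + t) * (1 + y)) := by
      rw [hat, hz₀]
      field_simp
      ring
    rw [e1, e2, inv_mul_le_iff₀ hmpos, ← mul_div_assoc]
    apply div_le_div_of_nonneg_right _ (by positivity)
    rw [div_le_iff₀ (by linarith)] at hm2
    linarith
  have hk := koebe_at h ha1 hzpos hza hr hr1 hr2
  have haB : (a : ℂ) ∈ ball (0:ℂ) 1 := by
    rw [mem_ball_zero_iff, Complex.norm_real, Real.norm_of_nonneg ha.le]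
    exact ha1
  have hzB : (z₀ : ℂ) ∈ ball (0:ℂ) 1 := by
    rw [mem_ball_zero_iff, Complex.norm_real, Real.norm_of_nonneg hzpos.le]
    exact hza.trans ha1
  have hne : phi β (z₀ : ℂ) - phi β (a : ℂ) ≠ 0 := by
    intro h0
    have h3 := h.inj _ _ hzB haB (by exact_mod_cast hzpos.ne') (by exact_mod_cast ha.ne')
      (sub_eq_zero.mp h0)
    have h4 : z₀ = a := by exact_mod_cast h3
    linarith
  have hE := exp_pt_half ξ
  rw [← hy] at hE
  have hy1' : (1 + (y : ℂ)) ≠ 0 := by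
    have : (1 + y : ℝ) ≠ 0 := by positivity
    exact_mod_cast this
  have hzf : zf (pt ξ (π / 2)) = (z₀ : ℂ) := by
    unfold zf
    rw [hE, hz₀]
    push_cast
    have h3 : I + (y : ℂ) * I = (1 + y) * I := by ring
    rw [h3, div_eq_div_iff (mul_ne_zero hy1' I_ne_zero) hy1']
    ring
  have hzd : zd (pt ξ (π / 2)) = ((-(1 - z₀ ^ 2) / 2 : ℝ) : ℂ) := by
    unfold zd
    rw [hE, hz₀]
    push_cast
    have h3 : ((y : ℂ) * I + I) ^ 2 = -((1 + y) ^ 2) := by
      linear_combination ((y : ℂ) + 1) ^ 2 * I_sq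
    rw [h3]
    field_simp
    ring_nf
    simp only [I_sq]
    ring
  unfold Xf
  rw [hzf, hzd, norm_div, norm_mul, norm_mul, Complex.norm_real]
  have h5 : ‖(-(1 - z₀ ^ 2) / 2 : ℝ)‖ = (1 - z₀ ^ 2) / 2 := by
    rw [Real.norm_eq_abs, abs_of_nonpos (by nlinarith [hza.trans ha1])]
    ring
  have h6 : ‖(2:ℂ)‖ = 2 := by simp
  rw [h5, h6, div_le_iff₀ (by positivity)]
  rw [← div_eq_mul_inv, div_le_iff₀ hmpos] at hk
  nlinarith

/-- the same bound with an exponentially small error -/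
theorem centre_err {β : ℂ → ℂ} (h : Ext β) {a : ℝ} (ha : 0 < a) (ha1 : a < 1) {ξ : ℝ}
    (h1 : Real.log (tau a) + 1 ≤ ξ) (h2 : ξ ≤ -1) :
    ‖Xf β a (pt ξ (π / 2))‖ ≤ 1 + 4 * Real.exp ξ + 4 * Real.exp (Real.log (tau a) - ξ) := by
  have hτ : 0 < tau a := by
    unfold tau
    have : 0 < 1 - a := by linarith
    positivity
  have hhalf : Real.exp (-1) ≤ 1 / 2 := by
    have h9 : Real.exp (-1) < 0.3678794412 := Real.exp_neg_one_lt_d9
    linarith
  have key : ∀ q : ℝ, 0 < q → q ≤ 1 / 2 → (1 + q) / (1 - q) ≤ 1 + 4 * q := by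
    intro q hq hq2
    rw [div_le_iff₀ (by linarith)]
    nlinarith
  have hy : Real.exp ξ ≤ 1 / 2 := (Real.exp_le_exp.mpr h2).trans hhalf
  have hq : Real.exp (Real.log (tau a) - ξ) ≤ 1 / 2 :=
    (Real.exp_le_exp.mpr (by linarith)).trans hhalf
  have hy0 := Real.exp_pos ξ
  have hq0 := Real.exp_pos (Real.log (tau a) - ξ)
  have hτe : tau a = Real.exp ξ * Real.exp (Real.log (tau a) - ξ) := by
    rw [← Real.exp_add, add_sub_cancel, Real.exp_log hτ]
  refine (centre h ha ha1 (by linarith) (by linarith)).trans (max_le ?_ ?_)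
  · have := key _ hy0 hy
    linarith
  · have h3 := key _ hq0 hq
    have h4 : (Real.exp ξ + tau a) / (Real.exp ξ - tau a) =
        (1 + Real.exp (Real.log (tau a) - ξ)) / (1 - Real.exp (Real.log (tau a) - ξ)) := by
      rw [div_eq_div_iff]
      · linear_combination 2 * hτe
      · have h5 : tau a < Real.exp ξ := (Real.log_lt_iff_lt_exp hτ).mp (by linarith)
        linarith
      · linarith
    rw [h4]
    linarith

end Pool.Agent.Helper84.EK
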