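import Mathlib

set_option autoImplicit false
open Complex MeasureTheory Metric Set
open scoped Real ComplexConjugate

/-! Project EK: integrals over open rectangles of the complex plane, holomorphic change of
variables. -/

namespace Pool.Agent.Helper84.EK

theorem reProdIm_eq (x₁ x₂ y₁ y₂ : ℝ) : (measurableEquivRealProd.symm ⁻¹'
    (Ioo x₁ x₂ ×ℂ Ioo y₁ y₂) : Set (ℝ × ℝ)) = Ioo x₁ x₂ ×ˢ Ioo y₁ y₂ := by
  ext p
  simp [Complex.mem_reProdIm, Complex.measurableEquivRealProd]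

theorem equiv_apply (p : ℝ × ℝ) :
    measurableEquivRealProd.symm p = (p.1 : ℂ) + (p.2 : ℂ) * I := by
  apply Complex.ext <;> simp [Complex.measurableEquivRealProd]

theorem rect_integrable {x₁ x₂ y₁ y₂ : ℝ} {h : ℂ → ℝ} :
    IntegrableOn (fun p : ℝ × ℝ => h ((p.1 : ℂ) + (p.2 : ℂ) * I)) (Ioo x₁ x₂ ×ˢ Ioo y₁ y₂) ↔
      IntegrableOn h (Ioo x₁ x₂ ×ℂ Ioo y₁ y₂) := by
  have hm := Complex.volume_preserving_equiv_real_prod.symm
  have := hm.integrableOn_comp_preimage (f := h) measurableEquivRealProd.symm.measurableEmbedding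
    (s := Ioo x₁ x₂ ×ℂ Ioo y₁ y₂)
  rw [reProdIm_eq] at this
  rw [← this]
  have e : (h ∘ measurableEquivRealProd.symm) =
      fun p : ℝ × ℝ => h ((p.1 : ℂ) + (p.2 : ℂ) * I) := by
    funext p
    simp only [Function.comp_apply, equiv_apply]
  rw [e]

/-- Integral over an open rectangle as an iterated integral. -/
theorem rect_integral {x₁ x₂ y₁ y₂ : ℝ} (hx : x₁ ≤ x₂) (hy : y₁ ≤ y₂) {h : ℂ → ℝ}
    (hi : IntegrableOn h (Ioo x₁ x₂ ×ℂ Ioo y₁ y₂)) :
    ∫ s in Ioo x₁ x₂ ×ℂ Ioo y₁ y₂, h s =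
      ∫ ξ in x₁..x₂, ∫ η in y₁..y₂, h ((ξ : ℂ) + (η : ℂ) * I) := by
  have hm := Complex.volume_preserving_equiv_real_prod.symm
  have h1 := hm.setIntegral_preimage_emb measurableEquivRealProd.symm.measurableEmbedding h
    (Ioo x₁ x₂ ×ℂ Ioo y₁ y₂)
  rw [reProdIm_eq] at h1
  rw [← h1]
  simp only [equiv_apply]
  have h2 := rect_integrable.2 hi
  rw [Measure.volume_eq_prod] at h2 ⊢
  rw [setIntegral_prod _ h2, intervalIntegral.integral_of_le hx, integral_Ioc_eq_integral_Ioo]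
  refine setIntegral_congr_fun measurableSet_Ioo fun ξ _ => ?_
  simp only
  rw [intervalIntegral.integral_of_le hy, integral_Ioc_eq_integral_Ioo]

theorem det_mul (b : ℂ) : (b • (1 : ℂ →L[ℝ] ℂ)).det = ‖b‖ ^ 2 := by
  have h1 : Algebra.norm ℝ b = Complex.normSq b := by
    rw [Algebra.norm_complex_eq]
    rfl
  rw [← Complex.normSq_eq_norm_sq, ← h1, Algebra.norm_apply]
  rfl

/-- Change of variables for an injective holomorphic map. -/
theorem cov {S : Set ℂ} (hS : MeasurableSet S) {Φ D : ℂ → ℂ} (hd : ∀ s ∈ S, HasDerivAt Φ (D s) s)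
    (hi : InjOn Φ S) (g : ℂ → ℝ) :
    ∫ ω in Φ '' S, g ω = ∫ s in S, ‖D s‖ ^ 2 * g (Φ s) := by
  rw [integral_image_eq_integral_abs_det_fderiv_smul volume hS
    (f' := fun s => D s • (1 : ℂ →L[ℝ] ℂ))
    (fun s hs => ((hd s hs).complexToReal_fderiv).hasFDerivWithinAt) hi]
  refine setIntegral_congr_fun hS fun s _ => ?_
  show |(D s • (1 : ℂ →L[ℝ] ℂ)).det| • g (Φ s) = ‖D s‖ ^ 2 * g (Φ s)
  rw [det_mul, abs_of_nonneg (by positivity), smul_eq_mul]

end Pool.Agent.Helper84.EK
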