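import Pool.Agent.Helper84.EK.E3bMain

set_option autoImplicit false
open Complex MeasureTheory Metric Set
open scoped Real ComplexConjugate

/-! Project EK, E3b: conclusion. -/

namespace Pool.Agent.Helper84.EK

open Pool.Agent.Helper52.EK

theorem prod_fun {f g : ℝ → ℝ} (hf : Integrable f) (hg : Integrable g) :
    Integrable (fun ω : ℂ => f ω.re * g ω.im) ∧
      ∫ ω : ℂ, f ω.re * g ω.im = (∫ x, f x) * ∫ y, g y := by
  have hm := Complex.volume_preserving_equiv_real_prod
  have he : (fun ω : ℂ => f ω.re * g ω.im) =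
      (fun p : ℝ × ℝ => f p.1 * g p.2) ∘ measurableEquivRealProd := by
    funext ω
    simp [Complex.measurableEquivRealProd]
  constructor
  · rw [he, hm.integrable_comp_emb measurableEquivRealProd.measurableEmbedding]
    exact hf.mul_prod hg
  · have h1 := hm.integral_comp measurableEquivRealProd.measurableEmbedding
      (fun p : ℝ × ℝ => f p.1 * g p.2)
    have h2 : ∫ ω : ℂ, f ω.re * g ω.im =
        ∫ ω : ℂ, (fun p : ℝ × ℝ => f p.1 * g p.2) (measurableEquivRealProd ω) := by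
      refine integral_congr_ae (Filter.Eventually.of_forall fun ω => ?_)
      simp [Complex.measurableEquivRealProd]
    rw [h2, h1, Measure.volume_eq_prod, integral_prod_mul]

/-- the dominating function -/
noncomputable def bb (K L₁ L₂ ξ : ℝ) : ℝ :=
  K * ((Icc L₁ L₂).indicator (fun _ => (1:ℝ)) ξ + (1 + ξ ^ 2)⁻¹)

theorem bb_int (K : ℝ) {L₁ L₂ : ℝ} (h : L₁ ≤ L₂) :
    Integrable (bb K L₁ L₂) ∧ ∫ ξ, bb K L₁ L₂ ξ = K * ((L₂ - L₁) + π) := by
  have h1 : Integrable ((Icc L₁ L₂).indicator (fun _ => (1:ℝ))) :=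
    (integrable_indicator_iff measurableSet_Icc).2 (integrableOn_const (by simp))
  have h2 : Integrable (fun ξ : ℝ => (1 + ξ ^ 2)⁻¹) := integrable_inv_one_add_sq
  constructor
  · exact (h1.add h2).const_mul K
  · unfold bb
    rw [integral_const_mul, integral_add h1 h2, integral_indicator measurableSet_Icc,
      integral_univ_inv_one_add_sq]
    simp [h]

theorem zf_mem {ω : ℂ} (h : ω.re < 0) (h0 : 0 < ω.im) (h1 : ω.im < π) :
    I + Complex.exp ω ≠ 0 ∧ 0 < ‖zf ω‖ ∧ ‖zf ω‖ < 1 := by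
  have hY : 0 < (Complex.exp ω).im := by
    rw [Complex.exp_im]
    exact mul_pos (Real.exp_pos _) (Real.sin_pos_of_pos_of_lt_pi h0 h1)
  have hne : I + Complex.exp ω ≠ 0 := by
    intro h2
    have := congrArg Complex.im h2
    simp only [Complex.add_im, Complex.I_im, Complex.zero_im] at this
    linarith
  have hne2 : I - Complex.exp ω ≠ 0 := by
    intro h2
    have h3 : Complex.exp ω = I := by linear_combination -h2
    have h4 := norm_exp_lt h
    rw [h3, Complex.norm_I] at h4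
    exact lt_irrefl _ h4
  refine ⟨hne, ?_, ?_⟩
  · unfold zf
    exact norm_pos_iff.2 (div_ne_zero hne2 hne)
  · unfold zf
    rw [norm_div, div_lt_one (norm_pos_iff.2 hne)]
    refine lt_of_pow_lt_pow_left₀ 2 (norm_nonneg _) ?_
    rw [← Complex.normSq_eq_norm_sq, ← Complex.normSq_eq_norm_sq, Complex.normSq_apply,
      Complex.normSq_apply]
    simp only [Complex.add_re, Complex.add_im, Complex.sub_re, Complex.sub_im, Complex.I_re,
      Complex.I_im]
    nlinarith

theorem TTzf_int {w : ℂ → ℂ} (hw : ContinuousOn w {z | 0 < ‖z‖ ∧ ‖z‖ < 1})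
    (hw1 : ∀ z, ‖w z‖ ≤ 1) {x₁ x₂ : ℝ} (h2 : x₂ ≤ 0) :
    IntegrableOn (fun ω => TT w (zf ω)) (Ioo x₁ x₂ ×ℂ Ioo 0 π) := by
  have hS : MeasurableSet (Ioo x₁ x₂ ×ℂ Ioo 0 π : Set ℂ) :=
    (isOpen_Ioo.reProdIm isOpen_Ioo).measurableSet
  have hmem : ∀ ω ∈ (Ioo x₁ x₂ ×ℂ Ioo 0 π : Set ℂ),
      I + Complex.exp ω ≠ 0 ∧ 0 < ‖zf ω‖ ∧ ‖zf ω‖ < 1 := fun ω hω => by
    rw [Complex.mem_reProdIm] at hω
    exact zf_mem (hω.1.2.trans_le h2) hω.2.1 hω.2.2
  have hzc : ContinuousOn zf (Ioo x₁ x₂ ×ℂ Ioo 0 π : Set ℂ) := by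
    unfold zf
    refine ContinuousOn.div ?_ ?_ fun ω hω => (hmem ω hω).1
    · exact (continuous_const.sub Complex.continuous_exp).continuousOn
    · exact (continuous_const.add Complex.continuous_exp).continuousOn
  have hc : ContinuousOn (fun ω => TT w (zf ω)) (Ioo x₁ x₂ ×ℂ Ioo 0 π : Set ℂ) :=
    (TT_cont hw).comp hzc fun ω hω => (hmem ω hω).2
  have hfin : volume (Ioo x₁ x₂ ×ℂ Ioo 0 π : Set ℂ) ≠ ⊤ := by
    have h3 : (Ioo x₁ x₂ ×ℂ Ioo 0 π : Set ℂ) ⊆ Icc x₁ x₂ ×ℂ Icc 0 π := fun ω hω => by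
      rw [Complex.mem_reProdIm] at hω ⊢
      exact ⟨Ioo_subset_Icc_self hω.1, Ioo_subset_Icc_self hω.2⟩
    exact ((measure_mono h3).trans_lt
      (isCompact_Icc.reProdIm isCompact_Icc).measure_lt_top).ne
  refine IntegrableOn.of_bound (lt_top_iff_ne_top.2 hfin) (hc.aestronglyMeasurable hS) 4 ?_
  refine (ae_restrict_iff' hS).2 (Filter.Eventually.of_forall fun ω hω => ?_)
  rw [Real.norm_eq_abs, abs_of_nonneg (TT_nonneg _ _)]
  exact TT_le hw1 (hmem ω hω).2.2

/-- E3b: change of variables; `w` arbitrary -/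
theorem E3b : ∀ A : ℝ, 1 ≤ A → ∃ C : ℝ, ∀ (w : ℂ → ℂ) (a : ℝ),
    ContinuousOn w {z | 0 < ‖z‖ ∧ ‖z‖ < 1} → (∀ z, ‖w z‖ ≤ 1) → Real.exp (-1) < a → a < 1 →
    Real.log (tau a) + A ≤ -A →
    Kf w 1 (-1) (Real.log a) ≤ π⁻¹ * II (Real.log (tau a) + A) (-A)
      (fun ξ η => ‖ee 1 (zf (pt ξ η)) - w (zf (pt ξ η))‖ ^ 2) + C := by
  intro A hA
  refine ⟨60 * (1 + A ^ 2) * ((A + 3) + π) * π, fun w a hw hw1 ha ha1 hτ => ?_⟩
  have ha0 : 0 < a := (Real.exp_pos _).trans ha
  have ht1 : -1 < Real.log a := by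
    rw [← Real.log_exp (-1)]
    exact Real.log_lt_log (Real.exp_pos _) ha
  have ht2 : Real.log a < 0 := Real.log_neg ha0 ha1
  set K : ℝ := 60 * (1 + A ^ 2) with hK
  have hK60 : 60 ≤ K := by nlinarith
  set x₁ : ℝ := Real.log (tau a) + A with hx1
  set L₁ : ℝ := Real.log (tau a) - 3 with hL1
  have hL : L₁ ≤ x₁ := by rw [hL1, hx1]; linarith
  set Q : Set ℂ := Ioo (-1) (Real.log a) ×ℂ Ioo (-π) π with hQ
  have hQm : MeasurableSet Q := (isOpen_Ioo.reProdIm isOpen_Ioo).measurableSet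
  have hneg : ∀ s ∈ Q, s.re < 0 := fun s hs => (Complex.mem_reProdIm.1 hs).1.2.trans ht2
  have hIm : MeasurableSet (Om '' Q) := by
    refine measurable_image_of_fderivWithin hQm
      (fun s hs => ((hasDerivAt_Om (hneg s hs)).complexToReal_fderiv).hasFDerivWithinAt)
      (Om_inj ht2.le)
  set Mn : Set ℂ := Ioo x₁ (-A) ×ℂ Ioo 0 π with hMn
  have hMm : MeasurableSet Mn := (isOpen_Ioo.reProdIm isOpen_Ioo).measurableSet
  -- the dominating function
  set g : ℂ → ℝ := fun ω => Mn.indicator (fun ω => π⁻¹ * TT w (zf ω)) ω +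
    bb K L₁ x₁ ω.re * (Ioo 0 π).indicator (fun _ => (1:ℝ)) ω.im with hg
  have hT := TTzf_int hw hw1 (x₁ := x₁) (x₂ := -A) (by linarith)
  have hone : Integrable ((Ioo 0 π).indicator (fun _ : ℝ => (1:ℝ))) :=
    (integrable_indicator_iff measurableSet_Ioo).2 (integrableOn_const (by simp))
  have hone2 : ∫ y, (Ioo 0 π).indicator (fun _ : ℝ => (1:ℝ)) y = π := by
    rw [integral_indicator measurableSet_Ioo]
    simp [Real.pi_pos.le]
  have hbb := bb_int K hL
  have hpf := prod_fun hbb.1 hone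
  have hg1 : Integrable (Mn.indicator (fun ω => π⁻¹ * TT w (zf ω))) :=
    (integrable_indicator_iff hMm).2 (hT.const_mul _)
  have hgi : Integrable g := hg1.add hpf.1
  have hgI : ∫ ω, g ω = π⁻¹ * (∫ ω in Mn, TT w (zf ω)) + K * ((A + 3) + π) * π := by
    rw [hg, integral_add hg1 hpf.1, hpf.2, hbb.2, hone2, integral_indicator hMm,
      integral_const_mul]
    have : x₁ - L₁ = A + 3 := by rw [hx1, hL1]; ring
    rw [this]
  have hbn : ∀ ξ, 0 ≤ bb K L₁ x₁ ξ := by
    intro ξ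
    unfold bb
    refine mul_nonneg (by linarith) (add_nonneg ?_ (by positivity))
    exact Set.indicator_nonneg (fun _ _ => zero_le_one) _
  have hg0 : ∀ ω, 0 ≤ g ω := by
    intro ω
    rw [hg]
    refine add_nonneg (Set.indicator_nonneg (fun ω _ => ?_) _) (mul_nonneg (hbn _) ?_)
    · exact mul_nonneg (by positivity) (TT_nonneg _ _)
    · exact Set.indicator_nonneg (fun _ _ => zero_le_one) _
  -- the pointwise bound
  have hpt : ∀ ω ∈ Om '' Q, (2 * π)⁻¹ * GG w (Real.log a) ω ≤ g ω := by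
    rintro _ ⟨s, hs, rfl⟩
    have hs0 := hneg s hs
    have hsQ := Complex.mem_reProdIm.1 hs
    have him := Om_im hs0
    have hind : (Ioo 0 π).indicator (fun _ : ℝ => (1:ℝ)) (Om s).im = 1 :=
      Set.indicator_of_mem (s := Ioo 0 π) (show (Om s).im ∈ Ioo 0 π from him) _
    have hMn0 : 0 ≤ Mn.indicator (fun ω => π⁻¹ * TT w (zf ω)) (Om s) :=
      Set.indicator_nonneg (fun ω _ => mul_nonneg (by positivity) (TT_nonneg _ _)) _
    have hI0 : 0 ≤ (Icc L₁ x₁).indicator (fun _ => (1:ℝ)) (Om s).re :=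
      Set.indicator_nonneg (fun _ _ => zero_le_one) _
    have hgs : g (Om s) = Mn.indicator (fun ω => π⁻¹ * TT w (zf ω)) (Om s) +
        K * ((Icc L₁ x₁).indicator (fun _ => (1:ℝ)) (Om s).re + (1 + (Om s).re ^ 2)⁻¹) := by
      rw [hg]
      simp only [hind, mul_one]
      rfl
    set ξ := (Om s).re with hξ
    have hq : 0 < 1 + ξ ^ 2 := by positivity
    rw [hgs]
    by_cases hc : ξ ≤ -A
    · have h1 : ξ ≤ -1 := by linarith
      have h2 := bound_small hw1 ht2.le hs0 (by rw [← hξ]; exact h1)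
      rw [← hξ] at h2
      have hT4 := TT_le hw1 (norm_exp_lt hs0)
      have h8 : π⁻¹ ≤ 1 / 3 := by
        rw [← one_div]
        exact one_div_le_one_div_of_le (by norm_num) Real.pi_gt_three.le
      have h9 : π⁻¹ * TT w (Complex.exp s) ≤ 4 / 3 := by
        calc π⁻¹ * TT w (Complex.exp s) ≤ 1 / 3 * 4 :=
              mul_le_mul h8 hT4 (TT_nonneg _ _) (by norm_num)
          _ = 4 / 3 := by norm_num
      have h10 : Real.exp ξ ≤ 1 := Real.exp_le_one_iff.2 (by linarith)
      by_cases hc1 : ξ ≤ x₁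
      · have h3 : L₁ ≤ ξ := re_lower ha0 ha1 hs0 hsQ.1.2.le (by rw [← hξ]; exact h1)
        have h4 : (Icc L₁ x₁).indicator (fun _ => (1:ℝ)) ξ = 1 :=
          Set.indicator_of_mem (s := Icc L₁ x₁) (show ξ ∈ Icc L₁ x₁ from ⟨h3, hc1⟩) _
        rw [h4]
        have h5 : 0 ≤ K * (1 + ξ ^ 2)⁻¹ := mul_nonneg (by linarith) (by positivity)
        rw [mul_add, mul_one]
        linarith
      · push Not at hc1
        by_cases hc2 : ξ < -A
        · have h3 : Om s ∈ Mn := by
            rw [hMn, Complex.mem_reProdIm]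
            exact ⟨⟨hc1, hc2⟩, him⟩
          have h4 : Mn.indicator (fun ω => π⁻¹ * TT w (zf ω)) (Om s) =
              π⁻¹ * TT w (Complex.exp s) := by
            rw [Set.indicator_of_mem h3, zf_Om hs0]
          rw [h4]
          have h5 : 8 * Real.exp ξ ≤ K * (1 + ξ ^ 2)⁻¹ := by
            rw [← div_eq_mul_inv, le_div_iff₀ hq]
            have h6 : 1 + ξ ^ 2 ≤ 2 * Real.exp (-ξ) := by
              have := Real.quadratic_le_exp_of_nonneg (x := -ξ) (by linarith)
              nlinarith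
            have h7 : Real.exp ξ * Real.exp (-ξ) = 1 := by
              rw [← Real.exp_add]
              simp
            have h8 := mul_le_mul_of_nonneg_left h6 (Real.exp_pos ξ).le
            have h9 : Real.exp ξ * (2 * Real.exp (-ξ)) = 2 := by linear_combination 2 * h7
            linarith
          have h6 : 0 ≤ K * (Icc L₁ x₁).indicator (fun _ => (1:ℝ)) ξ :=
            mul_nonneg (by linarith) hI0
          rw [mul_add]
          linarith
        · have h3 : ξ = -A := le_antisymm hc (not_lt.1 hc2)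
          have h5 : 60 ≤ K * (1 + ξ ^ 2)⁻¹ := by
            rw [← div_eq_mul_inv, le_div_iff₀ hq, hK, h3]
            exact le_of_eq (by ring)
          have h6 : 0 ≤ K * (Icc L₁ x₁).indicator (fun _ => (1:ℝ)) ξ :=
            mul_nonneg (by linarith) hI0
          rw [mul_add]
          linarith
    · push Not at hc
      have h2 := bound_large hw1 ht2.le hs0 hsQ.1.1.le
      rw [← hξ] at h2
      have h5 : 12 / (1 + Real.exp ξ ^ 2) ≤ K * (1 + ξ ^ 2)⁻¹ := by
        rw [← div_eq_mul_inv, div_le_div_iff₀ (by positivity) hq]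
        by_cases hc3 : 0 ≤ ξ
        · have h6 := Real.add_one_le_exp ξ
          have h7 : 1 + ξ ^ 2 ≤ 1 + Real.exp ξ ^ 2 := by nlinarith
          exact mul_le_mul (by linarith) h7 hq.le (by linarith)
        · push Not at hc3
          have h6 : ξ ^ 2 ≤ A ^ 2 := by nlinarith
          have h7 : 0 ≤ K * Real.exp ξ ^ 2 := mul_nonneg (by linarith) (by positivity)
          rw [mul_add, mul_one]
          linarith
      have h6 : 0 ≤ K * (Icc L₁ x₁).indicator (fun _ => (1:ℝ)) ξ :=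
        mul_nonneg (by linarith) hI0
      rw [mul_add]
      linarith
  rw [Kf_eq hw ht1 ht2, ← integral_const_mul]
  have hstep : ∫ ω in Om '' Q, (2 * π)⁻¹ * GG w (Real.log a) ω ≤ ∫ ω in Om '' Q, g ω := by
    refine integral_mono_of_nonneg ?_ hgi.integrableOn ?_
    · refine (ae_restrict_iff' hIm).2 (Filter.Eventually.of_forall ?_)
      rintro _ ⟨s, hs, rfl⟩
      exact mul_nonneg (by positivity) (GG_nonneg (hneg s hs) (Complex.mem_reProdIm.1 hs).1.2.le)
    · exact (ae_restrict_iff' hIm).2 (Filter.Eventually.of_forall hpt)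
  have hstep2 : ∫ ω in Om '' Q, g ω ≤ ∫ ω, g ω :=
    setIntegral_le_integral hgi (Filter.Eventually.of_forall hg0)
  refine (hstep.trans hstep2).trans ?_
  rw [hgI, hMn, rect_integral hτ Real.pi_pos.le hT]
  exact le_rfl

end Pool.Agent.Helper84.EK
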