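import Pool.Agent.Helper84.EK.BELog
import Pool.Agent.Helper39.EK.Dir
set_option autoImplicit false
open Complex MeasureTheory Metric Set
open scoped Real ENNReal ComplexConjugate

/-! The logarithmic area theorem for univalent functions of the class of Bieberbach and
Eilenberg. -/

namespace Pool.Agent.Helper84.EK

open Pool.Agent.Helper39.Area

variable {F : ℂ → ℂ} {ρ : ℝ}

theorem det_cmul (c : ℂ) : |(c • (1 : ℂ →L[ℝ] ℂ)).det| = ‖c‖ ^ 2 := by
  have h : (c • (1 : ℂ →L[ℝ] ℂ)).det = ‖c‖ ^ 2 := by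
    have h1 : (((c • (1 : ℂ →L[ℝ] ℂ)) : ℂ →L[ℝ] ℂ) : ℂ →ₗ[ℝ] ℂ) =
        ((c • (LinearMap.id : ℂ →ₗ[ℂ] ℂ)).restrictScalars ℝ) := by
      ext
      all_goals simp
    rw [ContinuousLinearMap.det, h1, LinearMap.det_restrictScalars]
    simp [Algebra.norm_complex_eq, Complex.normSq_eq_norm_sq]
  rw [h, abs_of_nonneg (by positivity)]

theorem uni_id : Uni (fun z => z) := ⟨differentiableOn_id, fun _ _ _ _ h => h, rfl⟩

theorem lArea_id {M : ℝ} (hM : 1 < M) : lArea (fun z => z) M⁻¹ M = 4 * π * Real.log M := by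
  have hM0 : 0 < M := by linarith
  have hρ : 0 < M⁻¹ := inv_pos.mpr hM0
  have hρ1 : M⁻¹ < 1 := inv_lt_one_of_one_lt₀ hM
  have h := uni_id.log_area hρ hρ1 (M := M) (by
    intro ζ hζ
    rw [mem_sphere, dist_zero_right] at hζ
    rw [hζ]
    linarith)
  have h1 : (∮ ζ in C(0, M⁻¹), ((2 * Real.log ‖ζ‖ : ℝ) : ℂ) * (deriv (fun z : ℂ => z) ζ / ζ)) =
      ∮ ζ in C(0, M⁻¹), ((2 * Real.log M⁻¹ : ℝ) : ℂ) * (ζ - 0)⁻¹ := by
    apply circleIntegral.integral_congr hρ.le
    intro ζ hζ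
    rw [mem_sphere, dist_zero_right] at hζ
    simp only
    rw [hζ, show deriv (fun z : ℂ => z) ζ = 1 from deriv_id ζ, sub_zero, one_div]
  rw [h1, circleIntegral.integral_const_mul,
    circleIntegral.integral_sub_inv_of_mem_ball (mem_ball_self hρ), Real.log_inv] at h
  have h2 : (2 * I : ℂ) ≠ 0 := mul_ne_zero two_ne_zero I_ne_zero
  have h3 : ((lArea (fun z => z) M⁻¹ M : ℝ) : ℂ) = ((4 * π * Real.log M : ℝ) : ℂ) := by
    apply mul_left_cancel₀ h2
    push_cast at h ⊢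
    linear_combination h
  exact_mod_cast h3

theorem lArea_ge (h : Uni F) (hρ : 0 < ρ) (hρ1 : ρ < 1)
    (hne : ∀ z ∈ ball (0:ℂ) ρ, ∀ w ∈ ball (0:ℂ) ρ, F z * F w ≠ 1) {M : ℝ} (hM : 1 < M) :
    2 * π * Real.log M ≤ lArea F ρ M := by
  have hM0 : 0 < M := by linarith
  have hMi : 0 < M⁻¹ := inv_pos.mpr hM0
  set f : ℂ → ℝ := fun u => (‖u‖ ^ 2)⁻¹ with hf
  set S : Set ℂ := F '' ball 0 ρ with hS
  have hSo : IsOpen S := h.image_open hρ1
  have hSm : MeasurableSet S := hSo.measurableSet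
  have h0S : (0:ℂ) ∈ S := ⟨0, mem_ball_self hρ, h.zero⟩
  obtain ⟨δ, hδ, hδS⟩ := Metric.isOpen_iff.mp hSo 0 h0S
  have hfm : Measurable f := by
    rw [hf]
    fun_prop
  have hf0 : ∀ u, 0 ≤ f u := fun u => by simp only [hf]; positivity
  -- integrability away from 0
  have hint : ∀ T : Set ℂ, MeasurableSet T → T ⊆ ball 0 M → (∃ e : ℝ, 0 < e ∧ ∀ u ∈ T, e ≤ ‖u‖) →
      IntegrableOn f T := by
    rintro T hT hTM ⟨e, he, heT⟩
    have hfin : volume T ≠ ⊤ := ((measure_mono hTM).trans_lt measure_ball_lt_top).ne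
    have hfi : IsFiniteMeasure (volume.restrict T) := by
      refine ⟨?_⟩
      rw [Measure.restrict_apply_univ]
      exact hfin.lt_top
    apply Integrable.of_bound hfm.aestronglyMeasurable ((e ^ 2)⁻¹)
    rw [ae_restrict_iff' hT]
    refine Filter.Eventually.of_forall fun u hu => ?_
    rw [Real.norm_of_nonneg (hf0 u)]
    simp only [hf]
    have := heT u hu
    gcongr
  set A : Set ℂ := ball 0 M \ closedBall 0 M⁻¹ with hA
  have hAm : MeasurableSet A := measurableSet_ball.diff measurableSet_closedBall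
  have hAi : IntegrableOn f A := hint A hAm sdiff_subset ⟨M⁻¹, hMi, fun u hu => by
    have := hu.2
    rw [mem_closedBall, dist_zero_right, not_le] at this
    exact this.le⟩
  have hBi : IntegrableOn f (ball 0 M \ S) :=
    hint _ (measurableSet_ball.diff hSm) sdiff_subset ⟨δ, hδ, fun u hu => by
      by_contra hlt
      push Not at hlt
      exact hu.2 (hδS (by rw [mem_ball, dist_zero_right]; exact hlt))⟩
  -- the two areas
  have e1 : lArea F ρ M = ∫ u in ball (0:ℂ) M \ S, f u := by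
    unfold lArea
    rw [← hS, setIntegral_indicator hSm.compl]
    rfl
  have e2 : (∫ u in A, f u) = 4 * π * Real.log M := by
    rw [← lArea_id hM]
    unfold lArea
    have e3 : (fun z : ℂ => z) '' ball 0 M⁻¹ = ball 0 M⁻¹ := by simp
    rw [e3, setIntegral_indicator measurableSet_ball.compl]
    apply setIntegral_congr_set
    have hs : volume (sphere (0:ℂ) M⁻¹) = 0 := Measure.addHaar_sphere volume 0 M⁻¹
    have h1 : ∀ᵐ u : ℂ, u ∉ sphere (0:ℂ) M⁻¹ := measure_eq_zero_iff_ae_notMem.mp hs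
    filter_upwards [h1] with u hu
    rw [mem_sphere, dist_zero_right] at hu
    apply propext
    change u ∈ A ↔ u ∈ ball (0:ℂ) M ∩ (ball 0 M⁻¹)ᶜ
    rw [hA, mem_sdiff, mem_inter_iff, mem_compl_iff, mem_closedBall, mem_ball (ε := M⁻¹),
      dist_zero_right]
    constructor
    · rintro ⟨h2, h3⟩
      exact ⟨h2, fun h4 => h3 h4.le⟩
    · rintro ⟨h2, h3⟩
      exact ⟨h2, fun h4 => h3 (lt_of_le_of_ne h4 hu)⟩
  -- the inversion
  have hinv : (∫ u in (fun u : ℂ => u⁻¹) '' (A ∩ S), f u) = ∫ u in A ∩ S, f u := by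
    have hne0 : ∀ u ∈ A ∩ S, u ≠ 0 := by
      rintro u ⟨hu, -⟩ rfl
      exact hu.2 (mem_closedBall_self hMi.le)
    rw [integral_image_eq_integral_abs_det_fderiv_smul volume (hAm.inter hSm)
      (f' := fun u => (-(u ^ 2)⁻¹) • (1 : ℂ →L[ℝ] ℂ))
      (fun u hu => (hasDerivAt_inv (hne0 u hu)).complexToReal_fderiv.hasFDerivWithinAt)
      (fun u _ v _ huv => inv_injective huv)]
    apply setIntegral_congr_fun (hAm.inter hSm)
    intro u hu
    have h1 : ‖u‖ ≠ 0 := norm_ne_zero_iff.mpr (hne0 u hu)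
    simp only [hf]
    rw [det_cmul, norm_neg, norm_inv, norm_pow, norm_inv, smul_eq_mul]
    field_simp
  have hsub : (fun u : ℂ => u⁻¹) '' (A ∩ S) ⊆ A \ S := by
    rintro _ ⟨u, ⟨huA, huS⟩, rfl⟩
    have hu0 : u ≠ 0 := by
      rintro rfl
      exact huA.2 (mem_closedBall_self hMi.le)
    have hupos : 0 < ‖u‖ := norm_pos_iff.mpr hu0
    have hu1 : ‖u‖ < M := by simpa using huA.1
    have hu2 : M⁻¹ < ‖u‖ := by
      have := huA.2
      rw [mem_closedBall, dist_zero_right, not_le] at this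
      exact this
    refine ⟨⟨?_, ?_⟩, ?_⟩
    · rw [mem_ball, dist_zero_right, norm_inv]
      exact inv_lt_of_inv_lt₀ hM0 hu2
    · rw [mem_closedBall, dist_zero_right, norm_inv, not_le]
      exact (inv_lt_inv₀ hM0 hupos).mpr hu1
    · rintro ⟨w, hw, hwu⟩
      obtain ⟨z, hz, hzu⟩ := huS
      apply hne z hz w hw
      rw [hzu, hwu]
      exact mul_inv_cancel₀ hu0
  have h1 : (∫ u in A ∩ S, f u) ≤ ∫ u in A \ S, f u := by
    rw [← hinv]
    exact setIntegral_mono_set (hAi.mono_set sdiff_subset)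
      (Filter.Eventually.of_forall fun u => hf0 u) (LE.le.eventuallyLE hsub)
  have h2 : (∫ u in A ∩ S, f u) + (∫ u in A \ S, f u) = ∫ u in A, f u :=
    integral_inter_add_sdiff hSm hAi
  have h3 : (∫ u in A \ S, f u) ≤ ∫ u in ball (0:ℂ) M \ S, f u :=
    setIntegral_mono_set hBi (Filter.Eventually.of_forall fun u => hf0 u)
      (LE.le.eventuallyLE (sdiff_subset_sdiff_left sdiff_subset))
  rw [e1]
  linarith

end Pool.Agent.Helper84.EK
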