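import Pool.Agent.Helper84.EK.BEArea
set_option autoImplicit false
open Complex MeasureTheory Metric Set Filter Topology
open scoped Real ENNReal ComplexConjugate

/-! The logarithmic area theorem for univalent functions of the class of Bieberbach and
Eilenberg: the coefficient form. -/

namespace Pool.Agent.Helper84.EK

open Pool.Agent.Helper39.Area

variable {F : ℂ → ℂ} {ρ : ℝ}

theorem be_radius (h : Uni F) {H : ℂ → ℂ} {c : ℂ} (hc : c ≠ 0)
    (hH : DifferentiableOn ℂ H (ball 0 1)) (hH0 : H 0 = 0)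
    (hFH : ∀ z ∈ ball (0:ℂ) 1, F z = c * z * Complex.exp (H z)) (hρ : 0 < ρ) (hρ1 : ρ < 1)
    (hne : ∀ z ∈ ball (0:ℂ) 1, ∀ w ∈ ball (0:ℂ) 1, F z * F w ≠ 1) (N : ℕ) :
    ∑ n ∈ Finset.range N, (n:ℝ) * ρ ^ (2 * n) * ‖iteratedDeriv n H 0 / n.factorial‖ ^ 2 ≤
      -2 * Real.log ‖c‖ - 2 * Real.log ρ := by
  obtain ⟨C, hC, hCe⟩ := Pool.Agent.Helper39.EK.dirichlet_sum hH hρ hρ1
  refine (hC N).trans ?_
  -- the radius
  obtain ⟨M, hM1, hM⟩ : ∃ M : ℝ, 1 < M ∧ ∀ ζ ∈ sphere (0:ℂ) ρ, ‖F ζ‖ < M := by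
    obtain ⟨M, hM⟩ := (isCompact_sphere (0:ℂ) ρ).exists_bound_of_continuousOn (h.cont hρ1)
    refine ⟨max M 1 + 1, ?_, fun ζ hζ => ?_⟩
    · linarith [le_max_right M 1]
    · linarith [hM ζ hζ, le_max_left M 1]
  have hJ := h.log_area hρ hρ1 hM
  have hA := lArea_ge h hρ hρ1 (fun z hz w hw => hne z (mem_ball_of_sphere hρ1
    (ball_subset_closedBall hz)) w (mem_ball_of_sphere hρ1 (ball_subset_closedBall hw))) hM1
  have hcpos : 0 < ‖c‖ := norm_pos_iff.mpr hc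
  have hHd : ContinuousOn (deriv H) (sphere 0 ρ) :=
    (hH.deriv isOpen_ball).continuousOn.mono
      fun _ hζ => mem_ball_of_sphere hρ1 (sphere_subset_closedBall hζ)
  have hHc : ContinuousOn H (sphere 0 ρ) :=
    hH.continuousOn.mono fun _ hζ => mem_ball_of_sphere hρ1 (sphere_subset_closedBall hζ)
  set K : ℂ := ((2 * Real.log ‖c‖ + 2 * Real.log ρ : ℝ) : ℂ) with hK
  -- expansion of the contour integral
  have e1 : (∮ ζ in C(0, ρ), ((2 * Real.log ‖F ζ‖ : ℝ) : ℂ) * (deriv F ζ / F ζ)) =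
      ∮ ζ in C(0, ρ), (K * (ζ - 0)⁻¹ + K * deriv H ζ + (ζ - 0)⁻¹ • H ζ +
        H ζ * deriv H ζ + conj (H ζ) * ζ⁻¹ + conj (H ζ) * deriv H ζ) := by
    apply circleIntegral.integral_congr hρ.le
    intro ζ hζ
    have hζ1 := mem_ball_of_sphere hρ1 (sphere_subset_closedBall hζ)
    have hζ0 := sphere_ne hρ hζ
    have hζn : ‖ζ‖ = ρ := by simpa using hζ
    have hd : HasDerivAt F (c * 1 * Complex.exp (H ζ) + c * ζ * (Complex.exp (H ζ) * deriv H ζ))
        ζ := by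
      have h1 := (((hasDerivAt_id ζ).const_mul c).mul
        ((hH.differentiableAt (isOpen_ball.mem_nhds hζ1)).hasDerivAt).cexp)
      refine h1.congr_of_eventuallyEq ?_
      filter_upwards [isOpen_ball.mem_nhds hζ1] with w hw
      exact hFH w hw
    have hE := Complex.exp_ne_zero (H ζ)
    have h2 : deriv F ζ / F ζ = ζ⁻¹ + deriv H ζ := by
      rw [hd.deriv, hFH ζ hζ1]
      field_simp
    have h3 : ((2 * Real.log ‖F ζ‖ : ℝ) : ℂ) = K + H ζ + conj (H ζ) := by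
      rw [hFH ζ hζ1, norm_mul, norm_mul, Complex.norm_exp, hζn,
        Real.log_mul (by positivity) (Real.exp_pos _).ne', Real.log_mul hcpos.ne' hρ.ne',
        Real.log_exp, add_assoc K (H ζ), Complex.add_conj, hK]
      push_cast
      ring
    simp only
    rw [h2, h3, sub_zero, smul_eq_mul]
    ring
  have c1 : CircleIntegrable (fun ζ : ℂ => K * (ζ - 0)⁻¹) 0 ρ := by
    apply ContinuousOn.circleIntegrable hρ.le
    apply continuousOn_const.mul
    apply ContinuousOn.inv₀ (by fun_prop)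
    intro ζ hζ
    rw [sub_zero]
    exact sphere_ne hρ hζ
  have c2 : CircleIntegrable (fun ζ : ℂ => K * deriv H ζ) 0 ρ :=
    (continuousOn_const.mul hHd).circleIntegrable hρ.le
  have hinv : ContinuousOn (fun ζ : ℂ => ζ⁻¹) (sphere 0 ρ) :=
    ContinuousOn.inv₀ (by fun_prop) fun ζ hζ => sphere_ne hρ hζ
  have c3 : CircleIntegrable (fun ζ : ℂ => (ζ - 0)⁻¹ • H ζ) 0 ρ := by
    apply ContinuousOn.circleIntegrable hρ.le
    simp only [sub_zero, smul_eq_mul]
    exact hinv.mul hHc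
  have c4 : CircleIntegrable (fun ζ : ℂ => H ζ * deriv H ζ) 0 ρ :=
    (hHc.mul hHd).circleIntegrable hρ.le
  have hcc : ContinuousOn (fun ζ : ℂ => conj (H ζ)) (sphere 0 ρ) :=
    Complex.continuous_conj.comp_continuousOn hHc
  have c5 : CircleIntegrable (fun ζ : ℂ => conj (H ζ) * ζ⁻¹) 0 ρ :=
    (hcc.mul hinv).circleIntegrable hρ.le
  have c6 : CircleIntegrable (fun ζ : ℂ => conj (H ζ) * deriv H ζ) 0 ρ :=
    (hcc.mul hHd).circleIntegrable hρ.le
  have v3 : (∮ ζ in C(0, ρ), (ζ - 0)⁻¹ • H ζ) = 0 := by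
    have h1 := (hH.mono (closedBall_subset_ball hρ1)).circleIntegral_sub_inv_smul
      (mem_ball_self hρ)
    rw [h1, hH0, smul_zero]
  have v5 : (∮ ζ in C(0, ρ), conj (H ζ) * ζ⁻¹) = 0 := by
    have h1 : (∮ ζ in C(0, ρ), conj (H ζ) * ζ⁻¹) = -conj (∮ ζ in C(0, ρ), (ζ - 0)⁻¹ • H ζ) := by
      simp only [circleIntegral]
      rw [intervalIntegral.integral_of_le Real.two_pi_pos.le,
        intervalIntegral.integral_of_le Real.two_pi_pos.le, ← integral_conj, ← integral_neg]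
      congr 1
      funext θ
      have h2 : circleMap 0 ρ θ ≠ 0 := circleMap_ne_center hρ.ne'
      rw [deriv_circleMap]
      simp only [smul_eq_mul, map_mul, sub_zero, map_inv₀, Complex.conj_I]
      have h3 : conj (circleMap 0 ρ θ) ≠ 0 := (map_ne_zero _).mpr h2
      field_simp
    rw [h1, v3, map_zero, neg_zero]
  have v2 : (∮ ζ in C(0, ρ), K * deriv H ζ) = 0 := by
    apply circleIntegral.integral_eq_zero_of_hasDerivWithinAt hρ.le (f := fun ζ => K * H ζ)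
    intro ζ hζ
    have hζ1 := mem_ball_of_sphere hρ1 (sphere_subset_closedBall hζ)
    exact ((hH.differentiableAt (isOpen_ball.mem_nhds hζ1)).hasDerivAt.const_mul K).hasDerivWithinAt
  have v4 : (∮ ζ in C(0, ρ), H ζ * deriv H ζ) = 0 := by
    apply circleIntegral.integral_eq_zero_of_hasDerivWithinAt hρ.le (f := fun ζ => H ζ ^ 2 / 2)
    intro ζ hζ
    have hζ1 := mem_ball_of_sphere hρ1 (sphere_subset_closedBall hζ)
    have h1 := ((hH.differentiableAt (isOpen_ball.mem_nhds hζ1)).hasDerivAt.pow 2).div_const 2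
    have h2 : ((2 : ℕ) : ℂ) * H ζ ^ (2 - 1) * deriv H ζ / 2 = H ζ * deriv H ζ := by
      push_cast
      ring
    rw [h2] at h1
    exact h1.hasDerivWithinAt
  have c12 : CircleIntegrable (fun ζ : ℂ => K * (ζ - 0)⁻¹ + K * deriv H ζ) 0 ρ := c1.add c2
  have c13 : CircleIntegrable (fun ζ : ℂ => K * (ζ - 0)⁻¹ + K * deriv H ζ + (ζ - 0)⁻¹ • H ζ)
    0 ρ := c12.add c3
  have c14 : CircleIntegrable (fun ζ : ℂ => K * (ζ - 0)⁻¹ + K * deriv H ζ + (ζ - 0)⁻¹ • H ζ +
    H ζ * deriv H ζ) 0 ρ := c13.add c4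
  have c15 : CircleIntegrable (fun ζ : ℂ => K * (ζ - 0)⁻¹ + K * deriv H ζ + (ζ - 0)⁻¹ • H ζ +
    H ζ * deriv H ζ + conj (H ζ) * ζ⁻¹) 0 ρ := c14.add c5
  rw [e1, circleIntegral.integral_add c15 c6, circleIntegral.integral_add c14 c5,
    circleIntegral.integral_add c13 c4, circleIntegral.integral_add c12 c3,
    circleIntegral.integral_add c1 c2,
    v2, v3, v4, v5, hCe, circleIntegral.integral_const_mul,
    circleIntegral.integral_sub_inv_of_mem_ball (mem_ball_self hρ)] at hJ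
  have h2 : (2 * I : ℂ) ≠ 0 := mul_ne_zero two_ne_zero I_ne_zero
  have h4 : ((π * (2 * Real.log ‖c‖ + 2 * Real.log ρ) + π * C : ℝ) : ℂ) =
      ((-lArea F ρ M + 2 * π * Real.log M : ℝ) : ℂ) := by
    apply mul_left_cancel₀ h2
    rw [hK] at hJ
    push_cast at hJ ⊢
    linear_combination hJ
  have h5 : π * (2 * Real.log ‖c‖ + 2 * Real.log ρ) + π * C = -lArea F ρ M + 2 * π * Real.log M := by
    exact_mod_cast h4
  have hpi := Real.pi_pos
  have h6 : π * (2 * Real.log ‖c‖ + 2 * Real.log ρ + C) ≤ 0 := by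
    rw [mul_add, h5]
    linarith
  have h7 : 2 * Real.log ‖c‖ + 2 * Real.log ρ + C ≤ 0 := by
    by_contra hcon
    push Not at hcon
    have := mul_pos hpi hcon
    linarith
  linarith

/-- **the logarithmic area theorem** for univalent functions `F = c z exp H` with
`F z * F w ≠ 1` -/
theorem be_sum (h : Uni F) {H : ℂ → ℂ} {c : ℂ} (hc : c ≠ 0)
    (hH : DifferentiableOn ℂ H (ball 0 1)) (hH0 : H 0 = 0)
    (hFH : ∀ z ∈ ball (0:ℂ) 1, F z = c * z * Complex.exp (H z))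
    (hne : ∀ z ∈ ball (0:ℂ) 1, ∀ w ∈ ball (0:ℂ) 1, F z * F w ≠ 1) (N : ℕ) :
    ∑ n ∈ Finset.range N, (n:ℝ) * ‖iteratedDeriv n H 0 / n.factorial‖ ^ 2 ≤
      -2 * Real.log ‖c‖ := by
  have h1 : Tendsto (fun ρ : ℝ => ∑ n ∈ Finset.range N,
      (n:ℝ) * ρ ^ (2 * n) * ‖iteratedDeriv n H 0 / n.factorial‖ ^ 2) (𝓝[<] 1)
      (𝓝 (∑ n ∈ Finset.range N,
        (n:ℝ) * 1 ^ (2 * n) * ‖iteratedDeriv n H 0 / n.factorial‖ ^ 2)) := by
    have : Continuous (fun ρ : ℝ => ∑ n ∈ Finset.range N,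
      (n:ℝ) * ρ ^ (2 * n) * ‖iteratedDeriv n H 0 / n.factorial‖ ^ 2) := by fun_prop
    exact this.continuousAt.tendsto.mono_left nhdsWithin_le_nhds
  have h2 : Tendsto (fun ρ : ℝ => -2 * Real.log ‖c‖ - 2 * Real.log ρ) (𝓝[<] 1)
      (𝓝 (-2 * Real.log ‖c‖ - 2 * Real.log 1)) := by
    apply Tendsto.mono_left _ nhdsWithin_le_nhds
    exact tendsto_const_nhds.sub ((Real.continuousAt_log one_ne_zero).tendsto.const_mul 2)
  have h3 := le_of_tendsto_of_tendsto h1 h2 (by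
    filter_upwards [Ioo_mem_nhdsLT (show (0:ℝ) < 1 by norm_num)] with ρ hρ
    exact be_radius h hc hH hH0 hFH hρ.1 hρ.2 hne N)
  simpa using h3

end Pool.Agent.Helper84.EK
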