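import Pool.Agent.Helper84.EK.BESum
import Pool.Agent.Helper22.Marshall.CoeffMul
set_option autoImplicit false
open Complex MeasureTheory Metric Set Filter Topology
open scoped Real ENNReal ComplexConjugate

/-! The area theorem of Bieberbach-Eilenberg functions for univalent functions without zeros:
the form with the first coefficients. -/

namespace Pool.Agent.Helper84.EK

open Pool.Agent.Helper39.Area
open Pool.Agent.Helper22.Marshall (coeff coeff_zero coeff_one coeff_mul coeff_congr coeff_deriv)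

/-- the function of Bieberbach and Eilenberg attached to a univalent function `exp L` -/
theorem exists_be {L : ℂ → ℂ} (hL : DifferentiableOn ℂ L (ball 0 1)) (hL0 : L 0 = 0)
    (hinj : InjOn (fun z => Complex.exp (L z)) (ball 0 1)) :
    ∃ F H : ℂ → ℂ, Uni F ∧ DifferentiableOn ℂ H (ball 0 1) ∧ H 0 = 0 ∧ deriv F 0 ≠ 0 ∧
      (∀ z ∈ ball (0:ℂ) 1, F z = deriv F 0 * z * Complex.exp (H z)) ∧
      (∀ z ∈ ball (0:ℂ) 1, deriv F z = deriv L z / 4 * (1 - F z * F z)) ∧
      ∀ N : ℕ, ∑ n ∈ Finset.range N, (n:ℝ) * ‖iteratedDeriv n H 0 / n.factorial‖ ^ 2 ≤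
        -2 * Real.log ‖deriv F 0‖ := by
  have h0b : (0:ℂ) ∈ ball (0:ℂ) 1 := mem_ball_self one_pos
  have hb0 : ball (0:ℂ) 1 ∈ 𝓝 (0:ℂ) := ball_mem_nhds 0 one_pos
  set k : ℂ → ℂ := fun z => Complex.exp (L z / 2) with hk
  have hkk : ∀ z, k z * k z = Complex.exp (L z) := by
    intro z
    simp only [hk]
    rw [← Complex.exp_add]
    congr 1
    ring
  have hk0 : k 0 = 1 := by simp [hk, hL0]
  have hkne : ∀ z, k z ≠ 0 := fun z => Complex.exp_ne_zero _
  have hsum : ∀ z ∈ ball (0:ℂ) 1, ∀ w ∈ ball (0:ℂ) 1, k z + k w ≠ 0 := by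
    intro z hz w hw h
    have h1 : k z = -k w := by linear_combination h
    have h2 : Complex.exp (L z) = Complex.exp (L w) := by
      rw [← hkk, ← hkk, h1]
      ring
    have h3 : z = w := hinj hz hw h2
    subst h3
    have h4 : 2 * k z = 0 := by linear_combination h
    rcases mul_eq_zero.mp h4 with h5 | h5
    · norm_num at h5
    · exact hkne z h5
  have hk1 : ∀ z ∈ ball (0:ℂ) 1, k z + 1 ≠ 0 := by
    intro z hz
    have := hsum z hz 0 h0b
    rwa [hk0] at this
  have hkd : DifferentiableOn ℂ k (ball 0 1) := (hL.div_const 2).cexp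
  set F : ℂ → ℂ := fun z => (k z - 1) / (k z + 1) with hF
  have hFd : DifferentiableOn ℂ F (ball 0 1) := (hkd.sub_const 1).div (hkd.add_const 1) hk1
  have hFi : InjOn F (ball 0 1) := by
    intro z hz w hw h
    simp only [hF] at h
    rw [div_eq_div_iff (hk1 z hz) (hk1 w hw)] at h
    have h1 : k z = k w := by linear_combination h / 2
    apply hinj hz hw
    simp only
    rw [← hkk, ← hkk, h1]
  have hF0 : F 0 = 0 := by simp [hF, hk0]
  have hU : Uni F := ⟨hFd, hFi, hF0⟩
  have hne : ∀ z ∈ ball (0:ℂ) 1, ∀ w ∈ ball (0:ℂ) 1, F z * F w ≠ 1 := by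
    intro z hz w hw h
    simp only [hF] at h
    rw [div_mul_div_comm, div_eq_one_iff_eq (mul_ne_zero (hk1 z hz) (hk1 w hw))] at h
    apply hsum z hz w hw
    linear_combination -h / 2
  have hdF : ∀ z ∈ ball (0:ℂ) 1, deriv F z = deriv L z / 4 * (1 - F z * F z) := by
    intro z hz
    have h1 : HasDerivAt L (deriv L z) z :=
      (hL.differentiableAt (isOpen_ball.mem_nhds hz)).hasDerivAt
    have h2 : HasDerivAt k (k z * (deriv L z / 2)) z := (h1.div_const 2).cexp
    have h3 := (h2.sub_const 1).div (h2.add_const 1) (hk1 z hz)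
    have h4 : deriv F z = (k z * (deriv L z / 2) * (k z + 1) -
        (k z - 1) * (k z * (deriv L z / 2))) / (k z + 1) ^ 2 := h3.deriv
    rw [h4]
    have h5 := hk1 z hz
    simp only [hF]
    field_simp
    ring
  -- the factorisation
  set G : ℂ → ℂ := dslope F 0 with hG
  have hGd : DifferentiableOn ℂ G (ball 0 1) := (Complex.differentiableOn_dslope hb0).mpr hFd
  have hG0 : G 0 = deriv F 0 := dslope_same F 0
  have hGne : ∀ z ∈ ball (0:ℂ) 1, G z ≠ 0 := fun z hz => hU.dslope_ne h0b hz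
  have hc : deriv F 0 ≠ 0 := by rw [← hG0]; exact hGne 0 h0b
  have hGf : ∀ z : ℂ, F z = z * G z := by
    intro z
    have := sub_smul_dslope F 0 z
    rw [smul_eq_mul, sub_zero, hF0, sub_zero] at this
    exact this.symm
  obtain ⟨H, hHd, hH0, hHe⟩ := Pool.Agent.Helper24.Br.exists_log_ball
    (q := fun z => G z / deriv F 0) (hGd.div_const _) (fun z hz => div_ne_zero (hGne z hz) hc)
    (by rw [hG0, div_self hc])
  have hFH : ∀ z ∈ ball (0:ℂ) 1, F z = deriv F 0 * z * Complex.exp (H z) := by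
    intro z hz
    rw [hHe z hz, hGf z]
    field_simp
  exact ⟨F, H, hU, hHd, hH0, hc, hFH, hdF, be_sum hU hc hHd hH0 hFH hne⟩

/-- **the area theorem of Bieberbach-Eilenberg functions**, two coefficients -/
theorem be_two {L : ℂ → ℂ} (hL : DifferentiableOn ℂ L (ball 0 1)) (hL0 : L 0 = 0)
    (hinj : InjOn (fun z => Complex.exp (L z)) (ball 0 1)) {l1 l2 l3 : ℂ} (h1 : coeff L 1 = l1)
    (h2 : coeff L 2 = l2) (h3 : coeff L 3 = l3) :
    l1 ≠ 0 ∧ ‖l2 / l1‖ ^ 2 + 2 * ‖l3 / l1 - (l2 / l1) ^ 2 / 2 - l1 ^ 2 / 48‖ ^ 2 ≤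
      -2 * Real.log (‖l1‖ / 4) := by
  have h0b : (0:ℂ) ∈ ball (0:ℂ) 1 := mem_ball_self one_pos
  have hb0 : ball (0:ℂ) 1 ∈ 𝓝 (0:ℂ) := ball_mem_nhds 0 one_pos
  obtain ⟨F, H, hU, hH, hH0, hc, hFH, hdF, hsum⟩ := exists_be hL hL0 hinj
  have hLa : AnalyticAt ℂ L 0 := hL.analyticAt hb0
  have hFa : AnalyticAt ℂ F 0 := hU.diff.analyticAt hb0
  have hHa : AnalyticAt ℂ H 0 := hH.analyticAt hb0
  set c := deriv F 0 with hcdef
  set G : ℂ → ℂ := fun z => c * Complex.exp (H z) with hG
  have hGd : DifferentiableOn ℂ G (ball 0 1) := (hH.cexp).const_mul c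
  have hGa : AnalyticAt ℂ G 0 := hGd.analyticAt hb0
  -- F = z G
  have hxa : AnalyticAt ℂ (fun z : ℂ => z) 0 := analyticAt_id
  have x0 : coeff (fun z : ℂ => z) 0 = 0 := by rw [coeff_zero]
  have x1 : coeff (fun z : ℂ => z) 1 = 1 := by rw [coeff_one]; simp
  have hFG : F =ᶠ[𝓝 0] fun z => z * G z := by
    filter_upwards [hb0] with z hz
    rw [hFH z hz]
    simp only [hG]
    ring
  have hdx : deriv (fun z : ℂ => z) = fun _ => (1:ℂ) := by
    funext z
    exact deriv_id z
  have x2 : ∀ n, coeff (fun z : ℂ => z) (n + 2) = 0 := by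
    intro n
    have e := coeff_deriv (fun z : ℂ => z) (n + 1)
    rw [hdx] at e
    have e2 : coeff (fun _ : ℂ => (1:ℂ)) (n + 1) = 0 := by
      have e3 := coeff_deriv (fun _ : ℂ => (1:ℂ)) n
      have e4 : deriv (fun _ : ℂ => (1:ℂ)) = fun _ => (0:ℂ) := by
        funext z
        simp
      rw [e4] at e3
      have e5 : coeff (fun _ : ℂ => (0:ℂ)) n = 0 := by
        have e6 := Pool.Agent.Helper22.Marshall.coeff_const_mul 0 (fun _ : ℂ => (0:ℂ)) n
        simpa using e6
      rw [e5] at e3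
      have e7 : ((n : ℂ) + 1) ≠ 0 := by exact_mod_cast Nat.succ_ne_zero n
      exact (mul_eq_zero.mp e3.symm).resolve_left e7
    rw [e2] at e
    have e7 : (((n + 1 : ℕ) : ℂ) + 1) ≠ 0 := by exact_mod_cast Nat.succ_ne_zero (n + 1)
    exact (mul_eq_zero.mp e.symm).resolve_left e7
  have f0 : coeff F 0 = 0 := by rw [coeff_zero, hU.zero]
  have f1 : coeff F 1 = coeff G 0 := by
    rw [coeff_congr hFG, coeff_mul hxa hGa]
    simp [Finset.sum_range_succ, x0, x1]
  have f2 : coeff F 2 = coeff G 1 := by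
    rw [coeff_congr hFG, coeff_mul hxa hGa]
    have := x2 0
    simp only [zero_add] at this
    simp [Finset.sum_range_succ, x0, x1, this]
  have f3 : coeff F 3 = coeff G 2 := by
    rw [coeff_congr hFG, coeff_mul hxa hGa]
    have e0 := x2 0
    have e1 := x2 1
    simp only [zero_add, Nat.reduceAdd] at e0 e1
    simp [Finset.sum_range_succ, x0, x1, e0, e1]
  -- G' = G H'
  have hGH : deriv G =ᶠ[𝓝 0] fun z => G z * deriv H z := by
    filter_upwards [hb0] with z hz
    have e1 := ((hH.differentiableAt (isOpen_ball.mem_nhds hz)).hasDerivAt).cexp.const_mul c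
    have e2 : deriv G z = c * (Complex.exp (H z) * deriv H z) := e1.deriv
    rw [e2]
    simp only [hG]
    ring
  have g0 : coeff G 0 = c := by
    rw [coeff_zero]
    simp [hG, hH0]
  have hdH : AnalyticAt ℂ (deriv H) 0 := hHa.deriv
  have g1 : coeff G 1 = c * coeff H 1 := by
    have e1 := coeff_congr hGH 0
    rw [coeff_mul hGa hdH, coeff_deriv] at e1
    simp only [Finset.sum_range_succ, Finset.sum_range_zero, zero_add, Nat.sub_self, coeff_deriv,
      g0] at e1
    push_cast at e1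
    linear_combination e1
  have g2 : 2 * coeff G 2 = 2 * c * coeff H 2 + coeff G 1 * coeff H 1 := by
    have e1 := coeff_congr hGH 1
    rw [coeff_mul hGa hdH, coeff_deriv] at e1
    simp only [Finset.sum_range_succ, Finset.sum_range_zero, zero_add, Nat.sub_self, Nat.sub_zero,
      coeff_deriv, g0] at e1
    push_cast at e1
    linear_combination e1
  -- F' = L'/4 (1 - F^2)
  have hFL : deriv F =ᶠ[𝓝 0] fun z => (deriv L z * 4⁻¹) * (1 - F z * F z) := by
    filter_upwards [hb0] with z hz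
    rw [hdF z hz]
    ring
  have hdL : AnalyticAt ℂ (deriv L) 0 := hLa.deriv
  have hdL4 : AnalyticAt ℂ (fun z => deriv L z * 4⁻¹) 0 := hdL.mul analyticAt_const
  have hFF : AnalyticAt ℂ (fun z => F z * F z) 0 := hFa.mul hFa
  have h1FF : AnalyticAt ℂ (fun z => 1 - F z * F z) 0 := analyticAt_const.sub hFF
  have cL : ∀ n : ℕ, coeff (fun z => deriv L z * 4⁻¹) n = ((n:ℂ) + 1) * coeff L (n + 1) / 4 := by
    intro n
    have e1 : (fun z => deriv L z * 4⁻¹) = fun z => (4:ℂ)⁻¹ * deriv L z := by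
      funext z
      ring
    rw [e1, Pool.Agent.Helper22.Marshall.coeff_const_mul, coeff_deriv]
    ring
  -- the coefficients of 1 - F^2
  have q0 : coeff (fun z => 1 - F z * F z) 0 = 1 := by
    rw [coeff_zero]
    simp [hU.zero]
  have hQd : deriv (fun z => 1 - F z * F z) =ᶠ[𝓝 0] fun z => (-2) * (F z * deriv F z) := by
    filter_upwards [hb0] with z hz
    have e1 := (hU.diff.differentiableAt (isOpen_ball.mem_nhds hz)).hasDerivAt
    have e2 := (e1.mul e1).const_sub 1
    have e3 : deriv (fun z => 1 - F z * F z) z = -(deriv F z * F z + F z * deriv F z) := e2.deriv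
    rw [e3]
    ring
  have hdFa : AnalyticAt ℂ (deriv F) 0 := hFa.deriv
  have cQ : ∀ n : ℕ, ((n:ℂ) + 1) * coeff (fun z => 1 - F z * F z) (n + 1) =
      -2 * ∑ i ∈ Finset.range (n + 1), coeff F i * coeff (deriv F) (n - i) := by
    intro n
    rw [← coeff_deriv, coeff_congr hQd, Pool.Agent.Helper22.Marshall.coeff_const_mul,
      coeff_mul hFa hdFa]
  have q1 : coeff (fun z => 1 - F z * F z) 1 = 0 := by
    have e1 := cQ 0
    simp only [Finset.sum_range_succ, Finset.sum_range_zero, f0] at e1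
    push_cast at e1
    linear_combination e1
  have q2 : coeff (fun z => 1 - F z * F z) 2 = -(coeff F 1) ^ 2 := by
    have e1 := cQ 1
    simp only [Finset.sum_range_succ, Finset.sum_range_zero, f0, Nat.sub_self, coeff_deriv] at e1
    push_cast at e1
    linear_combination e1 / 2
  have r0 : coeff F 1 = l1 / 4 := by
    have e1 := coeff_congr hFL 0
    rw [coeff_mul hdL4 h1FF, coeff_deriv] at e1
    simp only [Finset.sum_range_succ, Finset.sum_range_zero, Nat.sub_self, cL, q0] at e1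
    push_cast at e1
    rw [← h1]
    linear_combination e1
  have r1 : 2 * coeff F 2 = l2 / 2 := by
    have e1 := coeff_congr hFL 1
    rw [coeff_mul hdL4 h1FF, coeff_deriv] at e1
    simp only [Finset.sum_range_succ, Finset.sum_range_zero, Nat.sub_self, Nat.sub_zero, cL, q0,
      q1] at e1
    push_cast at e1
    rw [← h2]
    linear_combination e1
  have r2 : 3 * coeff F 3 = 3 * l3 / 4 - l1 / 4 * (coeff F 1) ^ 2 := by
    have e1 := coeff_congr hFL 2
    rw [coeff_mul hdL4 h1FF, coeff_deriv] at e1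
    simp only [Finset.sum_range_succ, Finset.sum_range_zero, Nat.sub_self, Nat.sub_zero, cL, q0,
      q1, q2, show (2 - 1 : ℕ) = 1 from rfl] at e1
    push_cast at e1
    rw [← h3, ← h1]
    linear_combination e1
  have hc1 : c = l1 / 4 := by rw [← r0, f1, g0]
  have hl1 : l1 ≠ 0 := by
    intro h
    apply hc
    rw [hc1, h, zero_div]
  refine ⟨hl1, ?_⟩
  have hH1 : coeff H 1 = l2 / l1 := by
    have e1 : c * coeff H 1 = l2 / 4 := by
      rw [← g1, ← f2]
      linear_combination r1 / 2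
    rw [hc1] at e1
    field_simp at e1 ⊢
    linear_combination e1
  have hH2 : coeff H 2 = l3 / l1 - (l2 / l1) ^ 2 / 2 - l1 ^ 2 / 48 := by
    have e1 : coeff G 2 = l3 / 4 - l1 ^ 3 / 192 := by
      rw [← f3]
      have e3 : (coeff F 1) ^ 2 = (l1 / 4) ^ 2 := by rw [r0]
      linear_combination r2 / 3 - l1 / 12 * e3
    rw [e1, g1, hH1, hc1] at g2
    have e4 : l1 / 2 ≠ 0 := div_ne_zero hl1 two_ne_zero
    apply mul_left_cancel₀ e4
    have e5 : l1 / 2 * (l3 / l1 - (l2 / l1) ^ 2 / 2 - l1 ^ 2 / 48) =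
        l3 / 2 - l1 / 4 * (l2 / l1) ^ 2 - l1 ^ 3 / 96 := by
      field_simp
      ring
    rw [e5]
    linear_combination -g2
  have hs := hsum 3
  simp only [Finset.sum_range_succ, Finset.sum_range_zero, Nat.cast_zero, zero_mul, zero_add,
    Nat.cast_one, one_mul] at hs
  have e1 : iteratedDeriv 1 H 0 / (Nat.factorial 1 : ℂ) = l2 / l1 := by
    rw [← hH1, Pool.Agent.Helper22.Marshall.coeff, div_eq_inv_mul]
  have e2 : iteratedDeriv 2 H 0 / (Nat.factorial 2 : ℂ) =
      l3 / l1 - (l2 / l1) ^ 2 / 2 - l1 ^ 2 / 48 := by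
    rw [← hH2, Pool.Agent.Helper22.Marshall.coeff, div_eq_inv_mul]
  have h4 : ‖l1 / 4‖ = ‖l1‖ / 4 := by rw [norm_div]; simp
  rw [e1, e2, hc1, h4] at hs
  simpa using hs

end Pool.Agent.Helper84.EK
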