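import Pool.Agent.Helper39.Area.LogKernel
import Pool.Agent.Helper39.Area.Ineq
import Pool.Agent.Helper24.Br.Inj
set_option autoImplicit false
open Complex MeasureTheory Metric Set
open scoped Real ENNReal ComplexConjugate

/-! The logarithmic area formula for a univalent function on the disc with `F 0 = 0`. -/

namespace Pool.Agent.Helper84.EK

open Pool.Agent.Helper39.Area

variable {F : ℂ → ℂ} {ρ : ℝ}

/-- univalent on the disc, with `F 0 = 0` -/
structure Uni (F : ℂ → ℂ) : Prop where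
  diff : DifferentiableOn ℂ F (ball 0 1)
  inj : InjOn F (ball 0 1)
  zero : F 0 = 0

theorem Uni.cont (h : Uni F) (hρ1 : ρ < 1) : ContinuousOn F (sphere 0 ρ) :=
  h.diff.continuousOn.mono fun _ hζ => mem_ball_of_sphere hρ1 (sphere_subset_closedBall hζ)

theorem Uni.dcont (h : Uni F) (hρ1 : ρ < 1) : ContinuousOn (deriv F) (sphere 0 ρ) :=
  (h.diff.deriv isOpen_ball).continuousOn.mono
    fun _ hζ => mem_ball_of_sphere hρ1 (sphere_subset_closedBall hζ)

theorem Uni.dslope_ne (h : Uni F) {a ζ : ℂ} (ha : a ∈ ball (0:ℂ) 1) (hζ : ζ ∈ ball (0:ℂ) 1) :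
    dslope F a ζ ≠ 0 := by
  by_cases hne : ζ = a
  · subst hne
    rw [dslope_same]
    exact Pool.Agent.Helper24.Br.deriv_ne_of_inj isOpen_ball h.diff h.inj hζ
  · rw [dslope_of_ne _ hne, slope_def_field]
    refine div_ne_zero ?_ (sub_ne_zero.mpr hne)
    intro h'
    exact hne (h.inj hζ ha (sub_eq_zero.mp h'))

theorem Uni.wind_in (h : Uni F) (hρ : 0 < ρ) (hρ1 : ρ < 1) {a : ℂ} (ha : a ∈ ball (0:ℂ) ρ) :
    (∮ ζ in C(0, ρ), deriv F ζ / (F ζ - F a)) = 2 * π * I := by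
  have ha1 : a ∈ ball (0:ℂ) 1 := mem_ball_of_sphere hρ1 (ball_subset_closedBall ha)
  have hsd : DifferentiableOn ℂ (dslope F a) (ball 0 1) :=
    (Complex.differentiableOn_dslope (isOpen_ball.mem_nhds ha1)).mpr h.diff
  have hs0 : ∀ ζ ∈ closedBall (0:ℂ) ρ, dslope F a ζ ≠ 0 := fun ζ hζ =>
    h.dslope_ne ha1 (mem_ball_of_sphere hρ1 hζ)
  have hfac : ∀ ζ : ℂ, F ζ = F a + (ζ - a) * dslope F a ζ := by
    intro ζ
    have := sub_smul_dslope F a ζ
    rw [smul_eq_mul] at this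
    rw [this]
    ring
  have h1 : (∮ ζ in C(0, ρ), deriv F ζ / (F ζ - F a)) =
      ∮ ζ in C(0, ρ), ((ζ - a)⁻¹ + deriv (dslope F a) ζ / dslope F a ζ) := by
    apply circleIntegral.integral_congr hρ.le
    intro ζ hζ
    have hζ1 := mem_ball_of_sphere hρ1 (sphere_subset_closedBall hζ)
    have hne : ζ - a ≠ 0 := by
      intro h'
      rw [sub_eq_zero] at h'
      subst h'
      simp at hζ ha
      linarith
    have hs := hs0 ζ (sphere_subset_closedBall hζ)
    have h3 : HasDerivAt F (1 * dslope F a ζ + (ζ - a) * deriv (dslope F a) ζ) ζ := by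
      have h4 := (((hasDerivAt_id ζ).sub_const a).mul
        ((hsd.differentiableAt (isOpen_ball.mem_nhds hζ1)).hasDerivAt)).const_add (F a)
      refine h4.congr_of_eventuallyEq (Filter.Eventually.of_forall fun w => ?_)
      exact hfac w
    have h5 : F ζ - F a = (ζ - a) * dslope F a ζ := by rw [hfac ζ]; ring
    simp only
    rw [h3.deriv, h5]
    field_simp
  have hc1 := (cont_logDeriv hρ1 hsd hs0).circleIntegrable hρ.le
  have hc2 : CircleIntegrable (fun ζ : ℂ => (ζ - a)⁻¹) 0 ρ := by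
    apply ContinuousOn.circleIntegrable hρ.le
    apply ContinuousOn.inv₀ (by fun_prop)
    intro ζ hζ h'
    rw [sub_eq_zero] at h'
    subst h'
    simp at hζ ha
    linarith
  rw [h1, circleIntegral.integral_add hc2 hc1, circle_logDeriv hρ hρ1 hsd hs0,
    circleIntegral.integral_sub_inv_of_mem_ball ha, add_zero]

theorem Uni.wind_out (h : Uni F) (hρ : 0 < ρ) (hρ1 : ρ < 1) {u : ℂ}
    (hu : ∀ ζ ∈ closedBall (0:ℂ) ρ, F ζ ≠ u) :
    (∮ ζ in C(0, ρ), deriv F ζ / (F ζ - u)) = 0 := by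
  have h1 := circle_logDeriv hρ hρ1 (s := fun ζ => F ζ - u) (h.diff.sub_const u)
    (fun ζ hζ h' => hu ζ hζ (sub_eq_zero.mp h'))
  refine Eq.trans ?_ h1
  apply circleIntegral.integral_congr hρ.le
  intro ζ hζ
  have hζ1 := mem_ball_of_sphere hρ1 (sphere_subset_closedBall hζ)
  have h2 := ((h.diff.differentiableAt (isOpen_ball.mem_nhds hζ1)).hasDerivAt.sub_const u).deriv
  simp only
  rw [h2]

theorem Uni.ne_on (h : Uni F) (hρ : 0 < ρ) (hρ1 : ρ < 1) : ∀ ζ ∈ sphere (0:ℂ) ρ, F ζ ≠ 0 := by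
  intro ζ hζ h'
  have h2 := h.inj (mem_ball_of_sphere hρ1 (sphere_subset_closedBall hζ))
    (mem_ball_self one_pos) (h'.trans h.zero.symm)
  exact sphere_ne hρ hζ h2

/-- the inner contour integral -/
theorem Uni.inner (h : Uni F) (hρ : 0 < ρ) (hρ1 : ρ < 1) {u : ℂ} (hu0 : u ≠ 0)
    (hu : u ∉ F '' sphere 0 ρ) :
    (∮ ζ in C(0, ρ), deriv F ζ / F ζ / (F ζ - u)) =
      u⁻¹ * ((∮ ζ in C(0, ρ), deriv F ζ / (F ζ - u)) - 2 * π * I) := by
  have hne : ∀ ζ ∈ sphere (0:ℂ) ρ, F ζ - u ≠ 0 := by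
    intro ζ hζ h'
    exact hu ⟨ζ, hζ, sub_eq_zero.mp h'⟩
  have hne2 := h.ne_on hρ hρ1
  have hc1 : CircleIntegrable (fun ζ => deriv F ζ / (F ζ - u)) 0 ρ := by
    apply ContinuousOn.circleIntegrable hρ.le
    exact (h.dcont hρ1).div ((h.cont hρ1).sub continuousOn_const) hne
  have hc2 : CircleIntegrable (fun ζ => deriv F ζ / (F ζ - F 0)) 0 ρ := by
    apply ContinuousOn.circleIntegrable hρ.le
    refine (h.dcont hρ1).div ((h.cont hρ1).sub continuousOn_const) ?_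
    intro ζ hζ
    rw [h.zero, sub_zero]
    exact hne2 ζ hζ
  have h1 : (∮ ζ in C(0, ρ), deriv F ζ / F ζ / (F ζ - u)) =
      ∮ ζ in C(0, ρ), u⁻¹ * (deriv F ζ / (F ζ - u) - deriv F ζ / (F ζ - F 0)) := by
    apply circleIntegral.integral_congr hρ.le
    intro ζ hζ
    have h3 := hne ζ hζ
    have h4 := hne2 ζ hζ
    simp only
    rw [h.zero, sub_zero]
    field_simp
    ring
  rw [h1, circleIntegral.integral_const_mul, circleIntegral.integral_sub hc1 hc2,
    h.wind_in hρ hρ1 (mem_ball_self hρ)]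

theorem Uni.image_open (h : Uni F) (hρ1 : ρ < 1) : IsOpen (F '' ball 0 ρ) := by
  rw [isOpen_iff_mem_nhds]
  rintro _ ⟨ζ, hζ, rfl⟩
  have hζ1 : ζ ∈ ball (0:ℂ) 1 := mem_ball_of_sphere hρ1 (ball_subset_closedBall hζ)
  have h2 : AnalyticAt ℂ F ζ := h.diff.analyticAt (isOpen_ball.mem_nhds hζ1)
  have hmap := h2.hasStrictDerivAt.map_nhds_eq
    (Pool.Agent.Helper24.Br.deriv_ne_of_inj isOpen_ball h.diff h.inj hζ1)
  rw [← hmap]
  exact Filter.image_mem_map (isOpen_ball.mem_nhds hζ)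

end Pool.Agent.Helper84.EK
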