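import Pool.Agent.Helper84.EK.BETwo
import Pool.Agent.Helper84.EK.Centre
import Pool.Agent.Helper67.EK.E1c
set_option autoImplicit false
open Complex Metric Set Filter Topology
open scoped Real

/-! Project EK3, module (b+): the area inequality of Bieberbach-Eilenberg functions on the centre
line of the strip. -/

namespace Pool.Agent.Helper84.EK

open Pool.Agent.Helper39.Area Pool.Agent.Helper52.EK
open Pool.Agent.Helper22.Marshall (coeff coeff_zero coeff_one coeff_deriv)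

/-- the automorphism of the disc with `0 ↦ z₀` -/
noncomputable def mob (z₀ : ℝ) (u : ℂ) : ℂ := (u + z₀) / (1 + z₀ * u)

section
variable {a z₀ r : ℝ} {u v : ℂ}

theorem mob_den (hz₀ : 0 < z₀) (hz1 : z₀ < 1) (hr1 : r ≤ z₀) (hu : u ∈ ball (0:ℂ) r) :
    (1 + (z₀ : ℂ) * u) ≠ 0 := by
  intro h0
  rw [mem_ball_zero_iff] at hu
  have h1 : (z₀ : ℂ) * u = -1 := by linear_combination h0
  have h2 : z₀ * ‖u‖ = 1 := by
    have := congrArg (fun w : ℂ => ‖w‖) h1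
    simpa [Complex.norm_real, abs_of_pos hz₀] using this
  nlinarith [norm_nonneg u]

theorem mob_mem (hz₀ : 0 < z₀) (hz1 : z₀ < 1) (hr1 : r ≤ z₀) (hu : u ∈ ball (0:ℂ) r) :
    mob z₀ u ∈ ball (0:ℂ) 1 := by
  have h1 := mob_den hz₀ hz1 hr1 hu
  rw [mem_ball_zero_iff] at hu ⊢
  unfold mob
  rw [norm_div, div_lt_one (norm_pos_iff.mpr h1)]
  have h2 : ‖u + z₀‖ ^ 2 < ‖1 + (z₀ : ℂ) * u‖ ^ 2 := by
    have h3 : ‖u‖ ^ 2 = u.re ^ 2 + u.im ^ 2 := by
      rw [← Complex.normSq_eq_norm_sq, Complex.normSq_apply]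
      ring
    have h4 : ‖u‖ ^ 2 < 1 := by nlinarith [norm_nonneg u]
    rw [← Complex.normSq_eq_norm_sq, ← Complex.normSq_eq_norm_sq, Complex.normSq_apply,
      Complex.normSq_apply]
    simp only [Complex.add_re, Complex.add_im, Complex.ofReal_re, Complex.ofReal_im,
      Complex.one_re, Complex.one_im, Complex.mul_re, Complex.mul_im, add_zero, zero_add,
      zero_mul, sub_zero]
    have h5 : 0 < (1 - (u.re ^ 2 + u.im ^ 2)) * (1 - z₀ ^ 2) := by
      apply mul_pos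
      · rw [← h3]; linarith
      · nlinarith
    nlinarith
  exact lt_of_pow_lt_pow_left₀ 2 (norm_nonneg _) h2

theorem mob_ne_zero (hz₀ : 0 < z₀) (hz1 : z₀ < 1) (hr1 : r ≤ z₀) (hu : u ∈ ball (0:ℂ) r) :
    mob z₀ u ≠ 0 := by
  intro h0
  have h1 := mob_den hz₀ hz1 hr1 hu
  unfold mob at h0
  rw [div_eq_zero_iff] at h0
  rcases h0 with h0 | h0
  · have h2 : u = -(z₀ : ℂ) := by linear_combination h0
    rw [mem_ball_zero_iff, h2, norm_neg, Complex.norm_real, Real.norm_of_nonneg hz₀.le] at hu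
    linarith
  · exact h1 h0

theorem mob_ne_a (ha1 : a < 1) (hz₀ : 0 < z₀) (hza : z₀ < a) (hr1 : r ≤ z₀)
    (hr2 : r * (1 - a * z₀) ≤ a - z₀) (hu : u ∈ ball (0:ℂ) r) : mob z₀ u ≠ a := by
  intro h0
  have hz1 : z₀ < 1 := hza.trans ha1
  have haz : 0 < 1 - a * z₀ := by nlinarith
  have h1 := mob_den hz₀ hz1 hr1 hu
  unfold mob at h0
  rw [div_eq_iff h1] at h0
  have h2 : u * ((1 - a * z₀ : ℝ) : ℂ) = ((a - z₀ : ℝ) : ℂ) := by
    push_cast
    linear_combination h0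
  have h3 := congrArg (fun w : ℂ => ‖w‖) h2
  simp only [norm_mul, Complex.norm_real] at h3
  rw [Real.norm_of_nonneg haz.le, Real.norm_of_nonneg (by linarith)] at h3
  rw [mem_ball_zero_iff] at hu
  nlinarith

theorem mob_inj (hz₀ : 0 < z₀) (hz1 : z₀ < 1) (hr1 : r ≤ z₀) (hu : u ∈ ball (0:ℂ) r)
    (hv : v ∈ ball (0:ℂ) r) (h0 : mob z₀ u = mob z₀ v) : u = v := by
  unfold mob at h0
  rw [div_eq_div_iff (mob_den hz₀ hz1 hr1 hu) (mob_den hz₀ hz1 hr1 hv)] at h0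
  have h1 : (u - v) * ((1 - z₀ ^ 2 : ℝ) : ℂ) = 0 := by
    push_cast
    linear_combination h0
  have h2 : ((1 - z₀ ^ 2 : ℝ) : ℂ) ≠ 0 := by
    have : (1 - z₀ ^ 2 : ℝ) ≠ 0 := by nlinarith
    exact_mod_cast this
  exact sub_eq_zero.mp ((mul_eq_zero.mp h1).resolve_right h2)

theorem mob_deriv (hu : (1 + (z₀ : ℂ) * u) ≠ 0) :
    HasDerivAt (mob z₀) ((1 - (z₀ : ℂ) ^ 2) / (1 + z₀ * u) ^ 2) u := by
  have h1 : HasDerivAt (fun u : ℂ => u + (z₀ : ℂ)) 1 u := (hasDerivAt_id _).add_const _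
  have h2 : HasDerivAt (fun u : ℂ => 1 + (z₀ : ℂ) * u) (z₀ : ℂ) u := by
    simpa using ((hasDerivAt_id u).const_mul (z₀ : ℂ)).const_add 1
  have h3 := h1.div h2 hu
  have e : (1 - (z₀ : ℂ) ^ 2) / (1 + z₀ * u) ^ 2 =
      (1 * (1 + (z₀ : ℂ) * u) - (u + (z₀ : ℂ)) * z₀) / (1 + (z₀ : ℂ) * u) ^ 2 := by
    congr 1
    ring
  rw [e]
  exact h3

end

/-- the path in the strip -/
noncomputable def om (ξ : ℝ) (u : ℂ) : ℂ := pt ξ (π / 2) + Complex.log ((1 - u) / (1 + u))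

theorem one_add_ne {u : ℂ} (hu : ‖u‖ < 1) : 1 + u ≠ 0 := by
  intro h
  have h1 : u = -1 := by linear_combination h
  rw [h1, norm_neg, norm_one] at hu
  exact lt_irrefl _ hu

theorem one_sub_ne {u : ℂ} (hu : ‖u‖ < 1) : 1 - u ≠ 0 := by
  intro h
  have h1 : u = 1 := by linear_combination -h
  rw [h1, norm_one] at hu
  exact lt_irrefl _ hu

theorem quot_re {u : ℂ} (hu : ‖u‖ < 1) : 0 < ((1 - u) / (1 + u)).re := by
  have h1 := one_add_ne hu
  have h2 : 0 < Complex.normSq (1 + u) := Complex.normSq_pos.mpr h1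
  have h3 : u.re ^ 2 + u.im ^ 2 < 1 := by
    have h4 : ‖u‖ ^ 2 = u.re ^ 2 + u.im ^ 2 := by
      rw [← Complex.normSq_eq_norm_sq, Complex.normSq_apply]
      ring
    rw [← h4]
    nlinarith [norm_nonneg u]
  rw [Complex.div_re, ← add_div]
  apply div_pos _ h2
  simp only [Complex.sub_re, Complex.sub_im, Complex.add_re, Complex.add_im, Complex.one_re,
    Complex.one_im, zero_sub, zero_add]
  nlinarith

theorem om_deriv (ξ : ℝ) {u : ℂ} (hu : ‖u‖ < 1) : HasDerivAt (om ξ) (-2 / (1 - u ^ 2)) u := by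
  have h1 := one_add_ne hu
  have h2 := one_sub_ne hu
  have h3 : HasDerivAt (fun u : ℂ => (1 - u) / (1 + u))
      ((-1 * (1 + u) - (1 - u) * 1) / (1 + u) ^ 2) u :=
    ((hasDerivAt_id u).const_sub 1).div ((hasDerivAt_id u).const_add 1) h1
  have h4 := (h3.clog (Or.inl (quot_re hu))).const_add (pt ξ (π / 2))
  have e : (-1 * (1 + u) - (1 - u) * 1) / (1 + u) ^ 2 / ((1 - u) / (1 + u)) =
      -2 / (1 - u ^ 2) := by
    have h5 : 1 - u ^ 2 = (1 - u) * (1 + u) := by ring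
    rw [h5]
    field_simp
    ring
  rw [e] at h4
  exact h4

theorem om_exp (ξ : ℝ) {u : ℂ} (hu : ‖u‖ < 1) :
    Complex.exp (om ξ u) = (Real.exp ξ : ℂ) * I * ((1 - u) / (1 + u)) := by
  unfold om
  rw [Complex.exp_add, Complex.exp_log, exp_pt_half]
  exact div_ne_zero (one_sub_ne hu) (one_add_ne hu)

theorem om_zero (ξ : ℝ) : om ξ 0 = pt ξ (π / 2) := by simp [om]

/-- `zf (om u) = mob u` and the chain rule -/
theorem om_zf {ξ z₀ r : ℝ} (hz : z₀ = (1 - Real.exp ξ) / (1 + Real.exp ξ)) (hz₀ : 0 < z₀)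
    (hz1 : z₀ < 1) (hr1 : r ≤ z₀) {u : ℂ} (hu : u ∈ ball (0:ℂ) r) :
    zf (om ξ u) = mob z₀ u ∧
      zd (om ξ u) * (-2 / (1 - u ^ 2)) = (1 - (z₀ : ℂ) ^ 2) / (1 + z₀ * u) ^ 2 := by
  have hu1 : ‖u‖ < 1 := by
    rw [mem_ball_zero_iff] at hu
    linarith
  have hy := Real.exp_pos ξ
  have hE := om_exp ξ hu1
  have h1 := one_add_ne hu1
  have h2 := one_sub_ne hu1
  have h3 := mob_den hz₀ hz1 hr1 hu
  set y := Real.exp ξ with hydef
  have hy1 : (1 + (y : ℂ)) ≠ 0 := by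
    have : (1 + y : ℝ) ≠ 0 := by positivity
    exact_mod_cast this
  have hzc : (z₀ : ℂ) = (1 - y) / (1 + y) := by rw [hz]; push_cast; ring
  have h4 : (1 + (z₀ : ℂ) * u) * (1 + y) = 1 + u + y * (1 - u) := by
    rw [hzc]
    field_simp
    ring
  have h5 : 1 + u + (y : ℂ) * (1 - u) ≠ 0 := by
    rw [← h4]
    exact mul_ne_zero h3 hy1
  have h6 : (u + (z₀ : ℂ)) * (1 + y) = 1 + u - y * (1 - u) := by
    rw [hzc]
    field_simp
    ring
  have hI := I_ne_zero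
  constructor
  · unfold zf mob
    rw [hE]
    have e1 : I - (y : ℂ) * I * ((1 - u) / (1 + u)) = I * (1 + u - y * (1 - u)) / (1 + u) := by
      field_simp
    have e2 : I + (y : ℂ) * I * ((1 - u) / (1 + u)) = I * (1 + u + y * (1 - u)) / (1 + u) := by
      field_simp
    rw [e1, e2, ← h4, ← h6]
    field_simp
  · unfold zd
    rw [hE]
    have e2 : (y : ℂ) * I * ((1 - u) / (1 + u)) + I = I * ((1 + (z₀ : ℂ) * u) * (1 + y)) /
        (1 + u) := by
      rw [h4]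
      field_simp
      ring
    have e3 : 1 - (z₀ : ℂ) ^ 2 = 4 * y / (1 + y) ^ 2 := by
      rw [hzc]
      field_simp
      ring
    have e4 : 1 - u ^ 2 = (1 - u) * (1 + u) := by ring
    rw [e2, e3, e4]
    field_simp
    ring_nf

/-- **the area inequality on the centre line** -/
theorem centre_be {β : ℂ → ℂ} {R : ℝ} (h : ExtR β R) {a : ℝ} (ha : 0 < a) (ha1 : a < 1) {ξ : ℝ}
    (h1 : Real.log (tau a) < ξ) (h2 : ξ < 0) {r : ℝ}
    (hr : r = (max ((1 + Real.exp ξ) / (1 - Real.exp ξ))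
      ((Real.exp ξ + tau a) / (Real.exp ξ - tau a)))⁻¹) {X X1 X2 : ℂ}
    (hX : X = Xf β a (pt ξ (π / 2))) (hX1 : X1 = deriv (Xf β a) (pt ξ (π / 2)))
    (hX2 : X2 = deriv (deriv (Xf β a)) (pt ξ (π / 2))) :
    X ≠ 0 ∧ 0 < r ∧ r < 1 ∧ r ^ 2 * ‖X1 / X‖ ^ 2 +
      2 * r ^ 4 * ‖(1 - X ^ 2 + 2 * (X2 / X) - 3 / 2 * (X1 / X) ^ 2) / 3‖ ^ 2 ≤
      -2 * Real.log (r * ‖X‖) := by
  have hτ : 0 < tau a := by
    unfold tau
    have : 0 < 1 - a := by linarith
    positivity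
  have hy0 : 0 < Real.exp ξ := Real.exp_pos ξ
  have hy1 : Real.exp ξ < 1 := by
    rw [← Real.exp_zero]
    exact Real.exp_lt_exp.mpr h2
  have hyτ : tau a < Real.exp ξ := (Real.log_lt_iff_lt_exp hτ).mp h1
  have hE := h.toExt
  have hat : a = (1 - tau a) / (1 + tau a) := by
    unfold tau
    field_simp
    ring
  obtain ⟨z₀, hz₀⟩ : ∃ z₀ : ℝ, z₀ = (1 - Real.exp ξ) / (1 + Real.exp ξ) := ⟨_, rfl⟩
  have hzpos : 0 < z₀ := by rw [hz₀]; exact div_pos (by linarith) (by linarith)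
  have hza : z₀ < a := by
    rw [hat, hz₀, div_lt_div_iff₀ (by linarith) (by linarith)]
    nlinarith
  have hz1 : z₀ < 1 := hza.trans ha1
  set m := max ((1 + Real.exp ξ) / (1 - Real.exp ξ))
      ((Real.exp ξ + tau a) / (Real.exp ξ - tau a)) with hm
  have hm1 : (1 + Real.exp ξ) / (1 - Real.exp ξ) ≤ m := le_max_left _ _
  have hm2 : (Real.exp ξ + tau a) / (Real.exp ξ - tau a) ≤ m := le_max_right _ _
  have hmpos : 0 < m := lt_of_lt_of_le (div_pos (by linarith) (by linarith)) hm1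
  have hr0 : 0 < r := by rw [hr]; exact inv_pos.mpr hmpos
  have hr1 : r ≤ z₀ := by
    rw [hr, inv_le_comm₀ hmpos hzpos, hz₀, inv_div]
    exact hm1
  have hr2 : r * (1 - a * z₀) ≤ a - z₀ := by
    have e1 : 1 - a * z₀ = 2 * (Real.exp ξ + tau a) / ((1 + tau a) * (1 + Real.exp ξ)) := by
      rw [hz₀]
      nth_rewrite 1 [hat]
      field_simp
      ring
    have e2 : a - z₀ = 2 * (Real.exp ξ - tau a) / ((1 + tau a) * (1 + Real.exp ξ)) := by
      rw [hz₀]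
      nth_rewrite 1 [hat]
      field_simp
      ring
    rw [e1, e2, hr, inv_mul_le_iff₀ hmpos, ← mul_div_assoc]
    apply div_le_div_of_nonneg_right _ (by positivity)
    rw [div_le_iff₀ (by linarith)] at hm2
    linarith
  have hrlt : r < 1 := lt_of_le_of_lt hr1 hz1
  -- the univalent function
  have hmem : ∀ z ∈ ball (0:ℂ) 1, (r : ℂ) * z ∈ ball (0:ℂ) r := by
    intro z hz
    rw [mem_ball_zero_iff] at hz ⊢
    rw [norm_mul, Complex.norm_real, Real.norm_of_nonneg hr0.le]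
    nlinarith
  have h0b : (0:ℂ) ∈ ball (0:ℂ) 1 := mem_ball_self one_pos
  have hb0 : ball (0:ℂ) 1 ∈ 𝓝 (0:ℂ) := ball_mem_nhds 0 one_pos
  have haB : (a : ℂ) ∈ ball (0:ℂ) 1 := by
    rw [mem_ball_zero_iff, Complex.norm_real, Real.norm_of_nonneg ha.le]
    exact ha1
  have ha0 : (a : ℂ) ≠ 0 := by exact_mod_cast ha.ne'
  have hrc : (r : ℂ) ≠ 0 := by exact_mod_cast hr0.ne'
  have hne : ∀ u ∈ ball (0:ℂ) r, phi β (mob z₀ u) - phi β a ≠ 0 := by
    intro u hu h0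
    exact mob_ne_a ha1 hzpos hza hr1 hr2 hu (hE.inj _ _ (mob_mem hzpos hz1 hr1 hu) haB
      (mob_ne_zero hzpos hz1 hr1 hu) ha0 (sub_eq_zero.mp h0))
  have hmob0 : mob z₀ 0 = z₀ := by simp [mob]
  set K : ℂ := phi β z₀ - phi β a with hK
  have hK0 : K ≠ 0 := by
    have := hne 0 (mem_ball_self hr0)
    rwa [hmob0] at this
  set g : ℂ → ℂ := fun z => (phi β (mob z₀ (r * z)) - phi β a) / K with hg
  have hgder : ∀ z ∈ ball (0:ℂ) 1, HasDerivAt g (dphi β (mob z₀ (r * z)) *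
      (((1 - (z₀ : ℂ) ^ 2) / (1 + z₀ * (r * z)) ^ 2) * r) / K) z := by
    intro z hz
    have hu := hmem z hz
    have d1 : HasDerivAt (fun z : ℂ => (r : ℂ) * z) (r : ℂ) z := by
      simpa using (hasDerivAt_id z).const_mul (r : ℂ)
    have d2 := (mob_deriv (mob_den hzpos hz1 hr1 hu)).comp z d1
    have d3 := (hasDerivAt_phi hE.diff (mob_mem hzpos hz1 hr1 hu)
      (mob_ne_zero hzpos hz1 hr1 hu)).comp z d2
    exact (d3.sub_const _).div_const K
  have hgd : DifferentiableOn ℂ g (ball 0 1) := fun z hz =>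
    (hgder z hz).differentiableAt.differentiableWithinAt
  have hgne : ∀ z ∈ ball (0:ℂ) 1, g z ≠ 0 := fun z hz => div_ne_zero (hne _ (hmem z hz)) hK0
  have hg0 : g 0 = 1 := by
    simp only [hg, mul_zero, hmob0]
    exact div_self hK0
  have hgi : InjOn g (ball 0 1) := by
    intro z hz w hw hzw
    simp only [hg] at hzw
    rw [div_left_inj' hK0] at hzw
    have e1 : phi β (mob z₀ (r * z)) = phi β (mob z₀ (r * w)) := by linear_combination hzw
    have e2 := hE.inj _ _ (mob_mem hzpos hz1 hr1 (hmem z hz)) (mob_mem hzpos hz1 hr1 (hmem w hw))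
      (mob_ne_zero hzpos hz1 hr1 (hmem z hz)) (mob_ne_zero hzpos hz1 hr1 (hmem w hw)) e1
    exact mul_left_cancel₀ hrc (mob_inj hzpos hz1 hr1 (hmem z hz) (hmem w hw) e2)
  obtain ⟨L, hLd, hL0, hLe⟩ := Pool.Agent.Helper24.Br.exists_log_ball hgd hgne hg0
  have hLi : InjOn (fun z => Complex.exp (L z)) (ball 0 1) := by
    intro z hz w hw hzw
    simp only at hzw
    rw [hLe z hz, hLe w hw] at hzw
    exact hgi hz hw hzw
  -- the functions in the strip
  set P : ℂ → ℂ := fun z => Xf β a (om ξ (r * z)) with hP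
  set Q : ℂ → ℂ := fun z => deriv (Xf β a) (om ξ (r * z)) with hQ
  set S : ℂ → ℂ := fun z => deriv (deriv (Xf β a)) (om ξ (r * z)) with hS
  set w : ℂ → ℂ := fun z => (1 - ((r : ℂ) * z) ^ 2)⁻¹ with hw
  have hL' : ∀ z ∈ ball (0:ℂ) 1, deriv L z = -4 * r * (P z * w z) := by
    intro z hz
    have hu := hmem z hz
    have e1 : HasDerivAt (fun z => Complex.exp (L z)) (Complex.exp (L z) * deriv L z) z :=
      ((hLd.differentiableAt (isOpen_ball.mem_nhds hz)).hasDerivAt).cexp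
    have e2 : (fun z => Complex.exp (L z)) =ᶠ[𝓝 z] g := by
      filter_upwards [isOpen_ball.mem_nhds hz] with v hv
      exact hLe v hv
    have e3 := e1.unique ((hgder z hz).congr_of_eventuallyEq e2)
    obtain ⟨o1, o2⟩ := om_zf hz₀ hzpos hz1 hr1 hu
    have n1 := hne _ hu
    have e4 : deriv L z = dphi β (mob z₀ (r * z)) *
      (((1 - (z₀ : ℂ) ^ 2) / (1 + z₀ * (r * z)) ^ 2) * r) / (phi β (mob z₀ (r * z)) - phi β a) := by
      rw [hLe z hz] at e3
      simp only [hg] at e3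
      have e5 : (phi β (mob z₀ (r * z)) - phi β a) * deriv L z = dphi β (mob z₀ (r * z)) *
          (((1 - (z₀ : ℂ) ^ 2) / (1 + z₀ * (r * z)) ^ 2) * r) := by
        apply mul_right_cancel₀ (inv_ne_zero hK0)
        rw [← div_eq_mul_inv, ← div_eq_mul_inv, ← e3]
        ring
      rw [← e5]
      field_simp
    rw [e4, ← o2]
    simp only [hP, hw]
    unfold Xf
    rw [o1]
    field_simp
    ring
  -- analyticity of X
  obtain ⟨x₁, hx₁, hx₁'⟩ := exists_between h1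
  obtain ⟨x₂, hx₂, hx₂'⟩ := exists_between h2
  have hN := Pool.Agent.Helper67.EK.E1c h ha ha1 hx₁ hx₂'
  have hω0 : pt ξ (π / 2) ∈ Rect x₁ x₂ := by
    unfold Rect
    rw [Complex.mem_reProdIm]
    have e1 : (pt ξ (π / 2)).re = ξ := by simp [pt]
    have e2 : (pt ξ (π / 2)).im = π / 2 := by simp [pt]
    rw [e1, e2]
    have := Real.pi_pos
    exact ⟨⟨hx₁'.le, hx₂.le⟩, ⟨by linarith, by linarith⟩⟩
  have hXa : AnalyticAt ℂ (Xf β a) (pt ξ (π / 2)) := hN.an _ hω0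
  have hX0 : X ≠ 0 := by rw [hX]; exact hN.ne _ hω0
  have hrz : HasDerivAt (fun z : ℂ => (r : ℂ) * z) (r : ℂ) 0 := by
    simpa using (hasDerivAt_id (0:ℂ)).const_mul (r : ℂ)
  have homd : ∀ z ∈ ball (0:ℂ) 1, HasDerivAt (fun z => om ξ (r * z)) (-2 * r * w z) z := by
    intro z hz
    have hu := hmem z hz
    have hu1 : ‖(r : ℂ) * z‖ < 1 := by
      rw [mem_ball_zero_iff] at hu
      linarith
    have d1 : HasDerivAt (fun z : ℂ => (r : ℂ) * z) (r : ℂ) z := by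
      simpa using (hasDerivAt_id z).const_mul (r : ℂ)
    have d2 := (om_deriv ξ hu1).comp z d1
    have e1 : -2 * r * w z = -2 / (1 - ((r : ℂ) * z) ^ 2) * r := by
      simp only [hw]
      ring
    rw [e1]
    exact d2
  have hom0 : om ξ ((r : ℂ) * 0) = pt ξ (π / 2) := by rw [mul_zero, om_zero]
  have hev : ∀ᶠ z in 𝓝 (0:ℂ), AnalyticAt ℂ (Xf β a) (om ξ (r * z)) := by
    have hc : ContinuousAt (fun z => om ξ (r * z)) 0 := (homd 0 h0b).continuousAt
    have e1 := hXa.eventually_analyticAt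
    rw [← hom0] at e1
    exact hc.eventually e1
  have hev1 : ∀ᶠ z in 𝓝 (0:ℂ), HasDerivAt P (-2 * r * w z * Q z) z ∧
      HasDerivAt Q (-2 * r * w z * S z) z ∧ HasDerivAt w (2 * (r : ℂ) ^ 2 * z * (w z * w z)) z := by
    filter_upwards [hev, hb0] with z hz hzb
    have e1 := homd z hzb
    have e2 := hz.differentiableAt.hasDerivAt.comp z e1
    have e3 := hz.deriv.differentiableAt.hasDerivAt.comp z e1
    have hu := hmem z hzb
    have hu1 : ‖(r : ℂ) * z‖ < 1 := by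
      rw [mem_ball_zero_iff] at hu
      linarith
    have e4 : (1 - ((r : ℂ) * z) ^ 2) ≠ 0 := by
      have e5 : 1 - ((r : ℂ) * z) ^ 2 = (1 - r * z) * (1 + r * z) := by ring
      rw [e5]
      exact mul_ne_zero (one_sub_ne hu1) (one_add_ne hu1)
    refine ⟨?_, ?_, ?_⟩
    · have e6 : -2 * r * w z * Q z = deriv (Xf β a) (om ξ (r * z)) * (-2 * r * w z) := by
        simp only [hQ]
        ring
      rw [e6]
      exact e2
    · have e6 : -2 * r * w z * S z = deriv (deriv (Xf β a)) (om ξ (r * z)) * (-2 * r * w z) := by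
        simp only [hS]
        ring
      rw [e6]
      exact e3
    · have d1 : HasDerivAt (fun z : ℂ => (r : ℂ) * z) (r : ℂ) z := by
        simpa using (hasDerivAt_id z).const_mul (r : ℂ)
      have d2 := ((d1.pow 2).const_sub 1).inv e4
      have e6 : 2 * (r : ℂ) ^ 2 * z * (w z * w z) =
          -(-(((2 : ℕ) : ℂ) * ((r : ℂ) * z) ^ (2 - 1) * r)) / (1 - ((r : ℂ) * z) ^ 2) ^ 2 := by
        simp only [hw]
        push_cast
        field_simp
      rw [e6]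
      exact d2
  have hev2 : ∀ᶠ z in 𝓝 (0:ℂ), deriv (deriv L) z =
      -4 * r * (-2 * r * (w z * w z) * Q z + 2 * (r : ℂ) ^ 2 * z * (w z * w z) * P z) := by
    have hb1 : ∀ᶠ z in 𝓝 (0:ℂ), deriv L =ᶠ[𝓝 z] fun z => -4 * r * (P z * w z) := by
      filter_upwards [hb0] with z hz
      filter_upwards [isOpen_ball.mem_nhds hz] with v hv
      exact hL' v hv
    filter_upwards [hev1, hb1] with z hz hzb
    rw [hzb.deriv_eq]
    have e1 := ((hz.1.mul hz.2.2).const_mul (-4 * (r : ℂ))).deriv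
    refine e1.trans ?_
    ring
  have hw0 : w 0 = 1 := by simp [hw]
  have hP0 : P 0 = X := by simp only [hP]; rw [hom0, hX]
  have hQ0 : Q 0 = X1 := by simp only [hQ]; rw [hom0, hX1]
  have hS0 : S 0 = X2 := by simp only [hS]; rw [hom0, hX2]
  have v1 : deriv L 0 = -4 * r * X := by
    rw [hL' 0 h0b, hP0, hw0, mul_one]
  have v2 : deriv (deriv L) 0 = 8 * (r : ℂ) ^ 2 * X1 := by
    rw [hev2.self_of_nhds, hw0, hQ0]
    ring
  have v3 : deriv (deriv (deriv L)) 0 = -16 * (r : ℂ) ^ 3 * X2 - 8 * (r : ℂ) ^ 3 * X := by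
    have hev2' : deriv (deriv L) =ᶠ[𝓝 (0:ℂ)] fun z =>
      -4 * r * (-2 * r * (w z * w z) * Q z + 2 * (r : ℂ) ^ 2 * z * (w z * w z) * P z) := hev2
    rw [hev2'.deriv_eq]
    obtain ⟨p1, p2, p3⟩ := hev1.self_of_nhds
    have e1 := (((((p3.mul p3).const_mul (-2 * (r : ℂ))).mul p2).add
      ((((hasDerivAt_id (0:ℂ)).const_mul (2 * (r : ℂ) ^ 2)).mul (p3.mul p3)).mul p1)).const_mul
        (-4 * (r : ℂ))).deriv
    refine e1.trans ?_
    simp only [Pi.mul_apply, id, hw0, hP0, hQ0, hS0, mul_zero, zero_mul, mul_one, add_zero,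
      zero_add]
    ring
  have c1 : coeff L 1 = -4 * r * X := by rw [coeff_one, v1]
  have c2 : coeff L 2 = 4 * (r : ℂ) ^ 2 * X1 := by
    have e1 := coeff_deriv L 1
    rw [coeff_one, v2] at e1
    push_cast at e1
    linear_combination -e1 / 2
  have c3 : coeff L 3 = -(8 * (r : ℂ) ^ 3 * X2 + 4 * (r : ℂ) ^ 3 * X) / 3 := by
    have e1 := coeff_deriv L 2
    have e2 := coeff_deriv (deriv L) 1
    rw [coeff_one, v3] at e2
    push_cast at e1 e2
    linear_combination -e1 / 3 - e2 / 6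
  obtain ⟨-, hbe⟩ := be_two hLd hL0 hLi c1 c2 c3
  refine ⟨hX0, hr0, hrlt, ?_⟩
  have n1 : ‖(4 * (r : ℂ) ^ 2 * X1) / (-4 * r * X)‖ ^ 2 = r ^ 2 * ‖X1 / X‖ ^ 2 := by
    have e1 : (4 * (r : ℂ) ^ 2 * X1) / (-4 * r * X) = -((r : ℂ) * (X1 / X)) := by
      field_simp
    rw [e1, norm_neg, norm_mul, Complex.norm_real, Real.norm_of_nonneg hr0.le, mul_pow]
  have n2 : ‖-(8 * (r : ℂ) ^ 3 * X2 + 4 * (r : ℂ) ^ 3 * X) / 3 / (-4 * r * X) -
      ((4 * (r : ℂ) ^ 2 * X1) / (-4 * r * X)) ^ 2 / 2 - (-4 * r * X) ^ 2 / 48‖ ^ 2 =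
      r ^ 4 * ‖(1 - X ^ 2 + 2 * (X2 / X) - 3 / 2 * (X1 / X) ^ 2) / 3‖ ^ 2 := by
    have e1 : -(8 * (r : ℂ) ^ 3 * X2 + 4 * (r : ℂ) ^ 3 * X) / 3 / (-4 * r * X) -
      ((4 * (r : ℂ) ^ 2 * X1) / (-4 * r * X)) ^ 2 / 2 - (-4 * r * X) ^ 2 / 48 =
      ((r ^ 2 : ℝ) : ℂ) * ((1 - X ^ 2 + 2 * (X2 / X) - 3 / 2 * (X1 / X) ^ 2) / 3) := by
      push_cast
      field_simp
      ring
    rw [e1, norm_mul, Complex.norm_real, Real.norm_of_nonneg (by positivity), mul_pow]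
    ring
  have n3 : ‖-4 * (r : ℂ) * X‖ / 4 = r * ‖X‖ := by
    rw [norm_mul, norm_mul, Complex.norm_real, Real.norm_of_nonneg hr0.le, norm_neg]
    have e1 : ‖(4:ℂ)‖ = 4 := by simp
    rw [e1]
    ring
  rw [n1, n2, n3] at hbe
  linarith

end Pool.Agent.Helper84.EK
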