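import Pool.Agent.Helper84.EK.Map

set_option autoImplicit false
open Complex MeasureTheory Metric Set
open scoped Real ComplexConjugate

/-! Project EK, E3b: change of variables from the disc to the strip. -/

namespace Pool.Agent.Helper84.EK

open Pool.Agent.Helper52.EK

/-- the loss -/
noncomputable def TT (w : ℂ → ℂ) (z : ℂ) : ℝ := ‖ee 1 z - w z‖ ^ 2

theorem TT_nonneg (w : ℂ → ℂ) (z : ℂ) : 0 ≤ TT w z := sq_nonneg _

theorem norm_ee {z : ℂ} (hz : ‖z‖ < 1) : ‖ee 1 z‖ = 1 := by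
  unfold ee
  rw [norm_div, mul_one]
  have h : ‖1 - conj z‖ = ‖1 - z‖ := by
    rw [← Complex.norm_conj, map_sub, map_one, Complex.conj_conj]
  rw [h, div_self (norm_ne_zero_iff.2 (one_sub_ne hz))]

theorem TT_le {w : ℂ → ℂ} (hw : ∀ z, ‖w z‖ ≤ 1) {z : ℂ} (hz : ‖z‖ < 1) : TT w z ≤ 4 := by
  unfold TT
  have h := norm_sub_le (ee 1 z) (w z)
  rw [norm_ee hz] at h
  have h1 := hw z
  have h2 := norm_nonneg (ee 1 z - w z)
  nlinarith

theorem ee_cont : ContinuousOn (ee 1) (ball (0:ℂ) 1) := by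
  unfold ee
  refine ContinuousOn.div ?_ ?_ fun z hz => one_sub_ne (mem_ball_zero_iff.1 hz)
  · exact (continuous_const.sub (Complex.continuous_conj.mul continuous_const)).continuousOn
  · exact (continuous_const.sub continuous_id).continuousOn

theorem TT_cont {w : ℂ → ℂ} (hw : ContinuousOn w {z | 0 < ‖z‖ ∧ ‖z‖ < 1}) :
    ContinuousOn (TT w) {z | 0 < ‖z‖ ∧ ‖z‖ < 1} := by
  unfold TT
  exact ((ee_cont.mono fun z hz => mem_ball_zero_iff.2 hz.2).sub hw).norm.pow 2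

/-- the integrand in the coordinate `s = t + i θ` -/
noncomputable def hh (w : ℂ → ℂ) (t₂ : ℝ) (s : ℂ) : ℝ :=
  (t₂ - s.re) * Pk 1 (Complex.exp s) * TT w (Complex.exp s) / Real.sinh s.re ^ 2

/-- the integrand in the strip -/
noncomputable def GG (w : ℂ → ℂ) (t₂ : ℝ) (ω : ℂ) : ℝ :=
  (t₂ - Real.log ‖zf ω‖) / (Complex.exp ω).im * TT w (zf ω)

theorem hh_eq (w : ℂ → ℂ) {t₂ : ℝ} {s : ℂ} (hs : s.re < 0) :
    ‖Dm s‖ ^ 2 * GG w t₂ (Om s) = hh w t₂ s := by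
  have hz := norm_exp_lt hs
  have h1 : ‖1 + Complex.exp s‖ ≠ 0 := norm_ne_zero_iff.2 (one_add_ne hz)
  have h2 : ‖1 - Complex.exp s‖ ≠ 0 := norm_ne_zero_iff.2 (one_sub_ne hz)
  have hr : ‖Complex.exp s‖ = Real.exp s.re := Complex.norm_exp s
  have hr0 : 0 < Real.exp s.re := Real.exp_pos _
  have h3 : 1 - Real.exp s.re ^ 2 ≠ 0 := by
    rw [← hr]
    nlinarith [norm_nonneg (Complex.exp s)]
  have hsinh : Real.sinh s.re ^ 2 = (1 - Real.exp s.re ^ 2) ^ 2 / (4 * Real.exp s.re ^ 2) := by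
    rw [Real.sinh_eq, Real.exp_neg]
    field_simp
    ring
  unfold GG hh Pk Dm
  rw [zf_Om hs, exp_Om hs]
  have h4 : (Zs s).im = (1 - ‖Complex.exp s‖ ^ 2) / ‖1 + Complex.exp s‖ ^ 2 := cay_im hz
  rw [h4, hsinh, norm_div, norm_neg, norm_mul, norm_mul, Complex.norm_ofNat, hr, Real.log_exp]
  field_simp
  ring

theorem hh_cont {w : ℂ → ℂ} (hw : ContinuousOn w {z | 0 < ‖z‖ ∧ ‖z‖ < 1}) (t₂ : ℝ) :
    ContinuousOn (hh w t₂) {s | s.re < 0} := by
  have hexp : ContinuousOn Complex.exp {s : ℂ | s.re < 0} := Complex.continuous_exp.continuousOn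
  have hmap : MapsTo Complex.exp {s : ℂ | s.re < 0} {z | 0 < ‖z‖ ∧ ‖z‖ < 1} := fun s hs =>
    ⟨norm_pos_iff.2 (Complex.exp_ne_zero s), norm_exp_lt hs⟩
  have hT : ContinuousOn (fun s => TT w (Complex.exp s)) {s : ℂ | s.re < 0} :=
    (TT_cont hw).comp hexp hmap
  have hP : ContinuousOn (fun s => Pk 1 (Complex.exp s)) {s : ℂ | s.re < 0} := by
    unfold Pk
    refine ContinuousOn.div ?_ ?_ fun s hs => ?_
    · exact (continuous_const.sub (Complex.continuous_exp.norm.pow 2)).continuousOn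
    · exact ((continuous_const.sub Complex.continuous_exp).norm.pow 2).continuousOn
    · exact pow_ne_zero 2 (norm_ne_zero_iff.2 (one_sub_ne (norm_exp_lt hs)))
  unfold hh
  refine ContinuousOn.div ((ContinuousOn.mul ?_ hP).mul hT) ?_ fun s hs => ?_
  · exact (continuous_const.sub Complex.continuous_re).continuousOn
  · exact ((Real.continuous_sinh.comp Complex.continuous_re).pow 2).continuousOn
  · refine pow_ne_zero 2 fun h => ?_
    exact (ne_of_lt hs) (Real.sinh_eq_zero.1 h)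

theorem hh_int {w : ℂ → ℂ} (hw : ContinuousOn w {z | 0 < ‖z‖ ∧ ‖z‖ < 1}) {t₂ : ℝ} (h2 : t₂ < 0) :
    IntegrableOn (hh w t₂) (Ioo (-1) t₂ ×ℂ Ioo (-π) π) := by
  have hc : IsCompact (Icc (-1) t₂ ×ℂ Icc (-π) π : Set ℂ) := isCompact_Icc.reProdIm isCompact_Icc
  have h1 : ContinuousOn (hh w t₂) (Icc (-1) t₂ ×ℂ Icc (-π) π) :=
    (hh_cont hw t₂).mono fun s hs => (Complex.mem_reProdIm.1 hs).1.2.trans_lt h2
  refine (h1.integrableOn_compact hc).mono_set fun s hs => ?_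
  rw [Complex.mem_reProdIm] at hs ⊢
  exact ⟨Ioo_subset_Icc_self hs.1, Ioo_subset_Icc_self hs.2⟩

/-- `Kf` as an integral in the strip. -/
theorem Kf_eq {w : ℂ → ℂ} (hw : ContinuousOn w {z | 0 < ‖z‖ ∧ ‖z‖ < 1}) {t₂ : ℝ}
    (h1 : -1 < t₂) (h2 : t₂ < 0) :
    Kf w 1 (-1) t₂ = (2 * π)⁻¹ * ∫ ω in Om '' (Ioo (-1) t₂ ×ℂ Ioo (-π) π), GG w t₂ ω := by
  have hS : MeasurableSet (Ioo (-1) t₂ ×ℂ Ioo (-π) π : Set ℂ) :=
    (isOpen_Ioo.reProdIm isOpen_Ioo).measurableSet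
  have hneg : ∀ s ∈ (Ioo (-1) t₂ ×ℂ Ioo (-π) π : Set ℂ), s.re < 0 := fun s hs =>
    (Complex.mem_reProdIm.1 hs).1.2.trans h2
  rw [cov hS (fun s hs => hasDerivAt_Om (hneg s hs)) (Om_inj h2.le)]
  rw [setIntegral_congr_fun hS fun s hs => hh_eq w (hneg s hs)]
  rw [rect_integral h1.le (by linarith [Real.pi_pos]) (hh_int hw h2)]
  unfold Kf hh ep TT
  congr 1
  refine intervalIntegral.integral_congr fun t _ => ?_
  refine intervalIntegral.integral_congr fun θ _ => ?_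
  simp

end Pool.Agent.Helper84.EK
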