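import Pool.Agent.Helper84.EK.E3b

set_option autoImplicit false
open Complex MeasureTheory Metric Set
open scoped Real ComplexConjugate

/-! Project EK, E3b: the bounds in the strip and the conclusion. -/

namespace Pool.Agent.Helper84.EK

open Pool.Agent.Helper52.EK

/-- The weight. -/
theorem GG_le {w : ℂ → ℂ} {t₂ : ℝ} (h2 : t₂ ≤ 0) {s : ℂ} (hs : s.re < 0) :
    (2 * π)⁻¹ * GG w t₂ (Om s) ≤ π⁻¹ * TT w (Complex.exp s) / ‖Zs s - I‖ ^ 2 := by
  have hz := norm_exp_lt hs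
  have h1 : 0 < ‖1 + Complex.exp s‖ := norm_pos_iff.2 (one_add_ne hz)
  have hr : ‖Complex.exp s‖ = Real.exp s.re := Complex.norm_exp s
  have hr0 : 0 < Real.exp s.re := Real.exp_pos _
  have h3 : 0 < 1 - Real.exp s.re ^ 2 := by
    rw [← hr]
    nlinarith [norm_nonneg (Complex.exp s)]
  have h4 : (Zs s).im = (1 - ‖Complex.exp s‖ ^ 2) / ‖1 + Complex.exp s‖ ^ 2 := cay_im hz
  have h5 : ‖Zs s - I‖ = 2 * ‖Complex.exp s‖ / ‖1 + Complex.exp s‖ := cay_sub hz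
  have hlog : Real.exp s.re ^ 2 * (-2 * s.re) ≤ 1 - Real.exp s.re ^ 2 := by
    have h6 := Real.add_one_le_exp (-2 * s.re)
    have h7 : Real.exp s.re ^ 2 * Real.exp (-2 * s.re) = 1 := by
      rw [← Real.exp_nat_mul, ← Real.exp_add]
      simp
    nlinarith [pow_pos hr0 2]
  unfold GG
  rw [zf_Om hs, exp_Om hs, h4, h5, hr, Real.log_exp]
  have hT := TT_nonneg w (Complex.exp s)
  have hpi := Real.pi_pos
  have e1 : (2 * π)⁻¹ * ((t₂ - s.re) / ((1 - Real.exp s.re ^ 2) / ‖1 + Complex.exp s‖ ^ 2) *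
      TT w (Complex.exp s)) = (t₂ - s.re) * (‖1 + Complex.exp s‖ ^ 2 * TT w (Complex.exp s) /
        (2 * π * (1 - Real.exp s.re ^ 2))) := by
    field_simp
  have e2 : π⁻¹ * TT w (Complex.exp s) / (2 * Real.exp s.re / ‖1 + Complex.exp s‖) ^ 2 =
      ((1 - Real.exp s.re ^ 2) / (2 * Real.exp s.re ^ 2)) *
        (‖1 + Complex.exp s‖ ^ 2 * TT w (Complex.exp s) /
        (2 * π * (1 - Real.exp s.re ^ 2))) := by
    field_simp
  rw [e1, e2]
  refine mul_le_mul_of_nonneg_right ?_ (by positivity)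
  rw [le_div_iff₀ (by positivity)]
  nlinarith [pow_pos hr0 2]

theorem GG_nonneg {w : ℂ → ℂ} {t₂ : ℝ} {s : ℂ} (hs : s.re < 0) (h : s.re ≤ t₂) :
    0 ≤ GG w t₂ (Om s) := by
  unfold GG
  rw [zf_Om hs, exp_Om hs, Complex.norm_exp, Real.log_exp]
  exact mul_nonneg (div_nonneg (by linarith) (Zs_im_pos hs).le) (TT_nonneg _ _)

/-- The real part of the image. -/
theorem exp_Om_re {s : ℂ} (hs : s.re < 0) : Real.exp (Om s).re = ‖Zs s‖ := by
  rw [← Complex.norm_exp, exp_Om hs]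

theorem inv_sq_bound {x : ℝ} (h0 : 0 ≤ x) (h : x ≤ 37 / 100) :
    1 / (1 - x) ^ 2 ≤ 1 + 6 * x := by
  rw [div_le_iff₀ (by nlinarith)]
  nlinarith [mul_nonneg h0 h0, mul_nonneg h0 (mul_nonneg h0 h0),
    mul_nonneg h0 (sub_nonneg.2 h)]

theorem exp_neg_one_le : Real.exp (-1) ≤ 37 / 100 := by
  have := Real.exp_neg_one_lt_d9
  linarith

/-- Region `ξ ≤ -1`. -/
theorem bound_small {w : ℂ → ℂ} (hw : ∀ z, ‖w z‖ ≤ 1) {t₂ : ℝ} (h2 : t₂ ≤ 0) {s : ℂ}
    (hs : s.re < 0) (h : (Om s).re ≤ -1) :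
    (2 * π)⁻¹ * GG w t₂ (Om s) ≤ π⁻¹ * TT w (Complex.exp s) + 8 * Real.exp (Om s).re := by
  have h1 := GG_le (w := w) h2 hs
  have hT := TT_nonneg w (Complex.exp s)
  have hT4 := TT_le hw (norm_exp_lt hs)
  set x := Real.exp (Om s).re with hx
  have hx0 : 0 < x := Real.exp_pos _
  have hx1 : x ≤ 37 / 100 := (Real.exp_le_exp.2 h).trans exp_neg_one_le
  have h3 : 1 - x ≤ ‖Zs s - I‖ := by
    have h4 := norm_sub_norm_le I (Zs s)
    rw [Complex.norm_I, ← exp_Om_re hs, norm_sub_rev] at h4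
    exact h4
  have h5 : π⁻¹ * TT w (Complex.exp s) / ‖Zs s - I‖ ^ 2 ≤
      π⁻¹ * TT w (Complex.exp s) * (1 / (1 - x) ^ 2) := by
    rw [div_eq_mul_one_div]
    refine mul_le_mul_of_nonneg_left ?_ (by positivity)
    refine one_div_le_one_div_of_le (by nlinarith) ?_
    exact pow_le_pow_left₀ (by linarith) h3 2
  have h6 := inv_sq_bound hx0.le hx1
  have h7 : π⁻¹ * TT w (Complex.exp s) * (1 / (1 - x) ^ 2) ≤
      π⁻¹ * TT w (Complex.exp s) * (1 + 6 * x) := mul_le_mul_of_nonneg_left h6 (by positivity)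
  have h8 : π⁻¹ ≤ 1 / 3 := by
    rw [← one_div]
    exact one_div_le_one_div_of_le (by norm_num) Real.pi_gt_three.le
  have h9 : π⁻¹ * TT w (Complex.exp s) ≤ 4 / 3 := by
    calc π⁻¹ * TT w (Complex.exp s) ≤ 1 / 3 * 4 :=
          mul_le_mul h8 hT4 hT (by norm_num)
      _ = 4 / 3 := by norm_num
  have h10 : π⁻¹ * TT w (Complex.exp s) * (1 + 6 * x) ≤ π⁻¹ * TT w (Complex.exp s) + 8 * x := by
    nlinarith
  linarith

/-- Lower bound of `ξ`. -/
theorem re_lower {a : ℝ} (h0 : 0 < a) (h1 : a < 1) {s : ℂ} (hs : s.re < 0)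
    (hsa : s.re ≤ Real.log a) (h : (Om s).re ≤ -1) : Real.log (tau a) - 3 ≤ (Om s).re := by
  have hz := norm_exp_lt hs
  have hza : ‖Complex.exp s‖ ≤ a := by
    rw [Complex.norm_exp]
    calc Real.exp s.re ≤ Real.exp (Real.log a) := Real.exp_le_exp.2 hsa
      _ = a := Real.exp_log h0
  set x := Real.exp (Om s).re with hx
  have hx0 : 0 < x := Real.exp_pos _
  have hx1 : x ≤ 37 / 100 := (Real.exp_le_exp.2 h).trans exp_neg_one_le
  have hxZ : x = ‖Zs s‖ := exp_Om_re hs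
  have h3 : 1 - x ≤ ‖Zs s + I‖ := by
    have h4 := norm_sub_norm_le I (-Zs s)
    rw [Complex.norm_I, norm_neg, ← hxZ, sub_neg_eq_add, add_comm] at h4
    exact h4
  have h5 : (Zs s).im = (1 - ‖Complex.exp s‖ ^ 2) / ‖1 + Complex.exp s‖ ^ 2 := cay_im hz
  have h6 : ‖Zs s + I‖ = 2 / ‖1 + Complex.exp s‖ := cay_add hz
  have h7 : 0 < ‖1 + Complex.exp s‖ := norm_pos_iff.2 (one_add_ne hz)
  have h8 : 4 * (Zs s).im = (1 - ‖Complex.exp s‖ ^ 2) * ‖Zs s + I‖ ^ 2 := by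
    rw [h5, h6]
    field_simp
    ring
  have h9 : (Zs s).im ≤ x := by
    rw [hxZ]
    exact (le_abs_self _).trans (Complex.abs_im_le_norm _)
  have h10 : tau a ≤ 1 - a ^ 2 := by
    unfold tau
    rw [div_le_iff₀ (by linarith)]
    nlinarith [mul_pos h0 h0, mul_nonneg (sub_nonneg.2 h1.le) h0.le,
      mul_nonneg (mul_nonneg (sub_nonneg.2 h1.le) h0.le) h0.le]
  have h11 : 0 < tau a := by
    unfold tau
    exact div_pos (by linarith) (by linarith)
  have h12 : 1 - a ^ 2 ≤ 1 - ‖Complex.exp s‖ ^ 2 := by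
    nlinarith [norm_nonneg (Complex.exp s)]
  have h13 : (63 / 100) ^ 2 ≤ ‖Zs s + I‖ ^ 2 := pow_le_pow_left₀ (by norm_num) (by linarith) 2
  have h14 : tau a * (63 / 100) ^ 2 ≤ 4 * x := by
    calc tau a * (63 / 100) ^ 2 ≤ (1 - ‖Complex.exp s‖ ^ 2) * ‖Zs s + I‖ ^ 2 :=
          mul_le_mul (h10.trans h12) h13 (by positivity) (by nlinarith)
      _ = 4 * (Zs s).im := h8.symm
      _ ≤ 4 * x := by linarith
  have h15 : Real.exp (-3) ≤ (37 / 100) ^ 3 := by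
    have : Real.exp (-3) = Real.exp (-1) ^ 3 := by
      rw [← Real.exp_nat_mul]
      norm_num
    rw [this]
    exact pow_le_pow_left₀ (Real.exp_pos _).le exp_neg_one_le 3
  have h16 : Real.exp (Real.log (tau a) - 3) ≤ x := by
    rw [sub_eq_add_neg, Real.exp_add, Real.exp_log h11]
    nlinarith
  exact Real.exp_le_exp.1 h16

/-- Region `-A < ξ`. -/
theorem bound_large {w : ℂ → ℂ} (hw : ∀ z, ‖w z‖ ≤ 1) {t₂ : ℝ} (h2 : t₂ ≤ 0) {s : ℂ}
    (hs : s.re < 0) (h : -1 ≤ s.re) :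
    (2 * π)⁻¹ * GG w t₂ (Om s) ≤ 12 / (1 + Real.exp (Om s).re ^ 2) := by
  have h1 := GG_le (w := w) h2 hs
  have hT := TT_nonneg w (Complex.exp s)
  have hz := norm_exp_lt hs
  have hT4 := TT_le hw hz
  set x := Real.exp (Om s).re with hx
  have hx0 : 0 < x := Real.exp_pos _
  have hxZ : x = ‖Zs s‖ := exp_Om_re hs
  have h6 : ‖Zs s + I‖ = 2 / ‖1 + Complex.exp s‖ := cay_add hz
  have h7 : 0 < ‖1 + Complex.exp s‖ := norm_pos_iff.2 (one_add_ne hz)
  have h5 : ‖Zs s - I‖ = 2 * ‖Complex.exp s‖ / ‖1 + Complex.exp s‖ := cay_sub hz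
  have h8 : ‖Zs s - I‖ = ‖Complex.exp s‖ * ‖Zs s + I‖ := by
    rw [h5, h6]
    ring
  have h9 : 1 + x ^ 2 ≤ ‖Zs s + I‖ ^ 2 := by
    rw [hxZ, ← Complex.normSq_eq_norm_sq, ← Complex.normSq_eq_norm_sq, Complex.normSq_apply,
      Complex.normSq_apply]
    have := Zs_im_pos hs
    simp only [Complex.add_re, Complex.add_im, Complex.I_re, Complex.I_im, add_zero]
    nlinarith
  have h10 : Real.exp (-2) ≤ ‖Complex.exp s‖ ^ 2 := by
    rw [Complex.norm_exp, ← Real.exp_nat_mul]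
    refine Real.exp_le_exp.2 ?_
    push_cast
    linarith
  have h11 : Real.exp (-2) * (1 + x ^ 2) ≤ ‖Zs s - I‖ ^ 2 := by
    rw [h8, mul_pow]
    exact mul_le_mul h10 h9 (by positivity) (by positivity)
  have h12 : Real.exp 2 ≤ 8 := by
    have h13 : Real.exp 2 = Real.exp 1 ^ 2 := by
      rw [← Real.exp_nat_mul]
      norm_num
    have h14 := Real.exp_one_lt_d9
    rw [h13]
    nlinarith [Real.exp_pos 1]
  have h8' : π⁻¹ ≤ 1 / 3 := by
    rw [← one_div]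
    exact one_div_le_one_div_of_le (by norm_num) Real.pi_gt_three.le
  have h9' : π⁻¹ * TT w (Complex.exp s) ≤ 4 / 3 := by
    calc π⁻¹ * TT w (Complex.exp s) ≤ 1 / 3 * 4 :=
          mul_le_mul h8' hT4 hT (by norm_num)
      _ = 4 / 3 := by norm_num
  refine h1.trans ?_
  calc π⁻¹ * TT w (Complex.exp s) / ‖Zs s - I‖ ^ 2
      ≤ π⁻¹ * TT w (Complex.exp s) / (Real.exp (-2) * (1 + x ^ 2)) :=
        div_le_div_of_nonneg_left (by positivity) (by positivity) h11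
    _ ≤ 4 / 3 / (Real.exp (-2) * (1 + x ^ 2)) :=
        div_le_div_of_nonneg_right h9' (by positivity)
    _ = 4 / 3 * Real.exp 2 / (1 + x ^ 2) := by
        rw [Real.exp_neg]
        field_simp
    _ ≤ 12 / (1 + x ^ 2) := by
        refine div_le_div_of_nonneg_right ?_ (by positivity)
        linarith

end Pool.Agent.Helper84.EK
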