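import Pool.Agent.Helper52.EK.Defs
import Pool.Agent.Helper84.EK.Rect

set_option autoImplicit false
open Complex MeasureTheory Metric Set
open scoped Real ComplexConjugate

/-! Project EK, E3b: the map from `t + i θ` to the strip coordinate. -/

namespace Pool.Agent.Helper84.EK

open Pool.Agent.Helper52.EK

theorem one_add_ne {z : ℂ} (hz : ‖z‖ < 1) : 1 + z ≠ 0 := by
  intro h
  have h1 : z = -1 := by linear_combination h
  rw [h1] at hz
  simp at hz

theorem one_sub_ne {z : ℂ} (hz : ‖z‖ < 1) : 1 - z ≠ 0 := by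
  intro h
  have h1 : z = 1 := by linear_combination -h
  rw [h1] at hz
  simp at hz

theorem cay_im {z : ℂ} (hz : ‖z‖ < 1) :
    (I * (1 - z) / (1 + z)).im = (1 - ‖z‖ ^ 2) / ‖1 + z‖ ^ 2 := by
  rw [← Complex.normSq_eq_norm_sq, ← Complex.normSq_eq_norm_sq]
  rw [Complex.div_im, Complex.normSq_apply, Complex.normSq_apply]
  have h : (1 + z).re * (1 + z).re + (1 + z).im * (1 + z).im ≠ 0 := by
    rw [← Complex.normSq_apply]
    exact fun h => one_add_ne hz (Complex.normSq_eq_zero.1 h)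
  field_simp
  simp
  ring

theorem cay_im_pos {z : ℂ} (hz : ‖z‖ < 1) : 0 < (I * (1 - z) / (1 + z)).im := by
  rw [cay_im hz]
  have h1 : 0 < ‖1 + z‖ := norm_pos_iff.2 (one_add_ne hz)
  have h2 : 0 < 1 - ‖z‖ ^ 2 := by nlinarith [norm_nonneg z]
  positivity

theorem cay_sub {z : ℂ} (hz : ‖z‖ < 1) :
    ‖I * (1 - z) / (1 + z) - I‖ = 2 * ‖z‖ / ‖1 + z‖ := by
  have h := one_add_ne hz
  have h1 : I * (1 - z) / (1 + z) - I = -(2 * I) * z / (1 + z) := by
    field_simp
    ring
  rw [h1, norm_div, norm_mul, norm_neg, norm_mul, Complex.norm_I, Complex.norm_ofNat]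
  ring

theorem cay_add {z : ℂ} (hz : ‖z‖ < 1) :
    ‖I * (1 - z) / (1 + z) + I‖ = 2 / ‖1 + z‖ := by
  have h := one_add_ne hz
  have h1 : I * (1 - z) / (1 + z) + I = 2 * I / (1 + z) := by
    field_simp
    ring
  rw [h1, norm_div, norm_mul, Complex.norm_I, Complex.norm_ofNat, mul_one]

/-- `Z` as a function of `s = t + i θ`. -/
noncomputable def Zs (s : ℂ) : ℂ := I * (1 - Complex.exp s) / (1 + Complex.exp s)

/-- `ω` as a function of `s`. -/
noncomputable def Om (s : ℂ) : ℂ := Complex.log (Zs s)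

/-- the derivative of `Om` -/
noncomputable def Dm (s : ℂ) : ℂ :=
  -(2 * Complex.exp s) / ((1 + Complex.exp s) * (1 - Complex.exp s))

theorem norm_exp_lt {s : ℂ} (hs : s.re < 0) : ‖Complex.exp s‖ < 1 := by
  rw [Complex.norm_exp]
  exact Real.exp_lt_one_iff.2 hs

theorem Zs_im_pos {s : ℂ} (hs : s.re < 0) : 0 < (Zs s).im := cay_im_pos (norm_exp_lt hs)

theorem Zs_ne {s : ℂ} (hs : s.re < 0) : Zs s ≠ 0 := by
  intro h
  have := Zs_im_pos hs
  rw [h] at this
  exact lt_irrefl _ this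

theorem exp_Om {s : ℂ} (hs : s.re < 0) : Complex.exp (Om s) = Zs s := Complex.exp_log (Zs_ne hs)

theorem zf_Om {s : ℂ} (hs : s.re < 0) : zf (Om s) = Complex.exp s := by
  unfold zf
  rw [exp_Om hs]
  unfold Zs
  have h := one_add_ne (norm_exp_lt hs)
  have hI := Complex.I_ne_zero
  have h1 : I - I * (1 - Complex.exp s) / (1 + Complex.exp s) =
      2 * I * Complex.exp s / (1 + Complex.exp s) := by
    field_simp
    ring
  have h2 : I + I * (1 - Complex.exp s) / (1 + Complex.exp s) =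
      2 * I / (1 + Complex.exp s) := by
    field_simp
    ring
  rw [h1, h2]
  field_simp

theorem Om_im {s : ℂ} (hs : s.re < 0) : 0 < (Om s).im ∧ (Om s).im < π := by
  unfold Om
  rw [Complex.log_im]
  have h := Zs_im_pos hs
  constructor
  · refine lt_of_le_of_ne (Complex.arg_nonneg_iff.2 h.le) fun h0 => ?_
    have := (Complex.arg_eq_zero_iff.1 h0.symm).2
    exact absurd this h.ne'
  · refine lt_of_le_of_ne (Complex.arg_le_pi _) fun h0 => ?_
    have := (Complex.arg_eq_pi_iff.1 h0).2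
    exact absurd this h.ne'

theorem hasDerivAt_Om {s : ℂ} (hs : s.re < 0) : HasDerivAt Om (Dm s) s := by
  have h1 := one_add_ne (norm_exp_lt hs)
  have h2 := one_sub_ne (norm_exp_lt hs)
  have hI := Complex.I_ne_zero
  have hnum : HasDerivAt (fun s => I * (1 - Complex.exp s)) (I * (-Complex.exp s)) s := by
    have := ((Complex.hasDerivAt_exp s).const_sub 1).const_mul I
    simpa using this
  have hden : HasDerivAt (fun s => 1 + Complex.exp s) (Complex.exp s) s := by
    simpa using (Complex.hasDerivAt_exp s).const_add 1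
  have h3 : HasDerivAt Zs ((I * (-Complex.exp s) * (1 + Complex.exp s) -
      I * (1 - Complex.exp s) * Complex.exp s) / (1 + Complex.exp s) ^ 2) s := hnum.div hden h1
  have h4 : Zs s ∈ slitPlane := by
    rw [Complex.mem_slitPlane_iff]
    exact Or.inr (Zs_im_pos hs).ne'
  have h5 := h3.clog h4
  have h6 : (I * (-Complex.exp s) * (1 + Complex.exp s) -
      I * (1 - Complex.exp s) * Complex.exp s) / (1 + Complex.exp s) ^ 2 / Zs s = Dm s := by
    unfold Zs Dm
    field_simp
    ring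
  rw [h6] at h5
  exact h5

theorem Om_inj {t₂ : ℝ} (ht : t₂ ≤ 0) : InjOn Om (Ioo (-1) t₂ ×ℂ Ioo (-π) π) := by
  intro s hs s' hs' h
  rw [Complex.mem_reProdIm] at hs hs'
  have h1 : s.re < 0 := hs.1.2.trans_le ht
  have h2 : s'.re < 0 := hs'.1.2.trans_le ht
  have h3 : Complex.exp s = Complex.exp s' := by
    rw [← zf_Om h1, ← zf_Om h2, h]
  exact Complex.exp_inj_of_neg_pi_lt_of_le_pi hs.2.1 hs.2.2.le hs'.2.1 hs'.2.2.le h3

end Pool.Agent.Helper84.EK
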